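import Pool.Agent.MP_3b4e7c_co.Gen.Cyc

/-! A hub from which every set of points is faced by more labels than it has points. -/

namespace Pool.Agent.MP_3b4e7c_co.Hub

open Finset Up Function Gen

variable {X : Type} [DecidableEq X] {n : ℕ} {P : Finset X} {H : Fin n → Finset X}

/-- the labels of `Y` that meet `I` -/
def Nb (K : Fin n → Finset X) (Y : Finset (Fin n)) (I : Finset X) : Finset (Fin n) :=
  Y.filter fun y => ∃ p ∈ I, p ∈ K y

theorem mem_Nb {K : Fin n → Finset X} {Y : Finset (Fin n)} {I : Finset X} {y : Fin n} :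
    y ∈ Nb K Y I ↔ y ∈ Y ∧ ∃ p ∈ I, p ∈ K y := mem_filter

theorem Nb_union (K : Fin n → Finset X) (Y : Finset (Fin n)) (I J : Finset X) :
    Nb K Y (I ∪ J) = Nb K Y I ∪ Nb K Y J := by
  ext y
  simp only [mem_Nb, mem_union]
  constructor
  · rintro ⟨h, p, h1 | h1, h2⟩
    exacts [Or.inl ⟨h, p, h1, h2⟩, Or.inr ⟨h, p, h1, h2⟩]
  · rintro (⟨h, p, h1, h2⟩ | ⟨h, p, h1, h2⟩)
    exacts [⟨h, p, Or.inl h1, h2⟩, ⟨h, p, Or.inr h1, h2⟩]

/-- two tight sets that meet a label in different points, one of them in one point only -/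
theorem tight_union {K : Fin n → Finset X} {Y : Finset (Fin n)} {W U V : Finset X}
    (hs : ∀ I ⊆ W, I.Nonempty → I.card + 1 ≤ (Nb K Y I).card) (hU : U ⊆ W) (hV : V ⊆ W)
    (tU : (Nb K Y U).card ≤ U.card + 1) (tV : (Nb K Y V).card ≤ V.card + 1) {y : Fin n}
    (y1 : y ∈ Nb K Y U) (y2 : y ∈ Nb K Y V) (y3 : y ∉ Nb K Y (U ∩ V)) :
    (Nb K Y (U ∪ V)).card ≤ (U ∪ V).card + 1 ∧ U ∩ V = ∅ ∧
      ∀ z ∈ Nb K Y U, z ∈ Nb K Y V → z = y := by
  have c1 := card_union_add_card_inter U V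
  have c2 := card_union_add_card_inter (Nb K Y U) (Nb K Y V)
  rw [← Nb_union] at c2
  obtain ⟨p, hp, -⟩ := (mem_Nb.1 y1).2
  have c3 := hs (U ∪ V) (union_subset hU hV) ⟨p, mem_union_left _ hp⟩
  have c4 : (insert y (Nb K Y (U ∩ V))).card ≤ (Nb K Y U ∩ Nb K Y V).card :=
    card_le_card (insert_subset (mem_inter.2 ⟨y1, y2⟩) fun z hz => by
      obtain ⟨z1, q, q1, q2⟩ := mem_Nb.1 hz
      exact mem_inter.2 ⟨mem_Nb.2 ⟨z1, q, (mem_inter.1 q1).1, q2⟩,
        mem_Nb.2 ⟨z1, q, (mem_inter.1 q1).2, q2⟩⟩)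
  rw [card_insert_of_notMem y3] at c4
  have e : U ∩ V = ∅ := by
    by_contra k
    have := hs (U ∩ V) (inter_subset_left.trans hU) (nonempty_iff_ne_empty.2 k)
    omega
  rw [e, card_empty] at c1
  exact ⟨by omega, e, fun z z1 z2 => card_le_one.1 (by omega) z (mem_inter.2 ⟨z1, z2⟩) y
    (mem_inter.2 ⟨y1, y2⟩)⟩

open Classical in
/-- the points of a label that are not below `a` -/
noncomputable def Fc (H : Fin n → Finset X) (lt : Fin n → X → X → Prop) (a : X) (y : Fin n) :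
    Finset X :=
  (H y).filter fun p => ¬ lt y p a

omit [DecidableEq X] in
theorem mem_Fc {lt : Fin n → X → X → Prop} {a p : X} {y : Fin n} :
    p ∈ Fc H lt a y ↔ p ∈ H y ∧ ¬ lt y p a := by simp [Fc]

/-- the labels are cut from below as far as possible; some point is then lowest in its labels -/
theorem sink (lt : Fin n → X → X → Prop) (mem : ∀ y p q, lt y p q → q ∈ H y)
    (tr : ∀ y p q r, lt y p q → lt y q r → lt y p r) (ir : ∀ y p, ¬ lt y p p)
    (Y : Finset (Fin n)) (W : Finset X) (hW : W.Nonempty)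
    (hs : ∀ I ⊆ W, I.Nonempty → I.card + 1 ≤ (Nb H Y I).card) :
    ∃ a ∈ W, ∀ I ⊆ W, I.Nonempty → I.card + 1 ≤ (Nb (Fc H lt a) Y I).card := by
  classical
  have ex : ∃ m, ∃ K : Fin n → Finset X, (∀ y, K y ⊆ H y ∩ W) ∧
      (∀ y, ∀ p ∈ K y, ∀ q ∈ W, lt y p q → q ∈ K y) ∧
      (∀ I ⊆ W, I.Nonempty → I.card + 1 ≤ (Nb K Y I).card) ∧ ∑ y, (K y).card = m :=
    ⟨_, fun y => H y ∩ W, fun _ => Subset.rfl, fun y p _ q hq h => mem_inter.2 ⟨mem y p q h, hq⟩,
      fun I h1 h2 => (hs I h1 h2).trans (card_le_card fun y hy => by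
        obtain ⟨y1, p, p1, p2⟩ := mem_Nb.1 hy
        exact mem_Nb.2 ⟨y1, p, p1, mem_inter.2 ⟨p2, h1 p1⟩⟩), rfl⟩
  obtain ⟨K, k1, k2, k3, k4⟩ := Nat.find_spec ex
  have crit : ∀ y, ∀ c ∈ K y, (∀ p ∈ K y, ¬ lt y p c) → ∃ V ⊆ W, c ∈ V ∧ y ∈ Y ∧
      (Nb K Y V).card ≤ V.card + 1 ∧ ∀ p ∈ V, p ∈ K y → p = c := by
    intro y c hc low
    by_contra no
    have sm : ∀ z, update K y ((K y).erase c) z ⊆ K z := fun z => by
      by_cases h : z = y
      · rw [h, update_self]; exact erase_subset _ _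
      · rw [update_of_ne h]
    refine Nat.find_min ex (m := ∑ z, (update K y ((K y).erase c) z).card) ?_
      ⟨update K y ((K y).erase c), fun z => (sm z).trans (k1 z), fun z p hp q hq h => ?_,
        fun I h1 h2 => ?_, rfl⟩
    · rw [← k4]
      refine sum_lt_sum (fun z _ => card_le_card (sm z)) ⟨y, mem_univ _, ?_⟩
      rw [update_self]
      exact card_erase_lt_of_mem hc
    · by_cases e : z = y
      · subst e
        rw [update_self] at hp ⊢
        exact mem_erase.2 ⟨fun e => low p (mem_of_mem_erase hp) (e ▸ h),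
          k2 z p (mem_of_mem_erase hp) q hq h⟩
      · rw [update_of_ne e] at hp ⊢
        exact k2 z p hp q hq h
    · have c1 := k3 I h1 h2
      have s1 : ∀ z ∈ Nb K Y I, z ≠ y → z ∈ Nb (update K y ((K y).erase c)) Y I := fun z hz e => by
        rw [mem_Nb, update_of_ne e]; exact mem_Nb.1 hz
      by_cases e : y ∈ Nb K Y I → y ∈ Nb (update K y ((K y).erase c)) Y I
      · refine c1.trans (card_le_card fun z hz => ?_)
        by_cases e' : z = y
        · exact e' ▸ e (e' ▸ hz)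
        · exact s1 z hz e'
      rw [Classical.not_imp] at e
      obtain ⟨y1, p, p1, p2⟩ := mem_Nb.1 e.1
      have one : ∀ q ∈ I, q ∈ K y → q = c := fun q q1 q2 => by
        by_contra d
        exact e.2 (mem_Nb.2 ⟨y1, q, q1, by rw [update_self]; exact mem_erase.2 ⟨d, q2⟩⟩)
      have c2 : ((Nb K Y I).erase y).card ≤ _ :=
        card_le_card fun z hz => s1 z (mem_of_mem_erase hz) (mem_erase.1 hz).1
      have c3 := card_erase_add_one e.1
      by_contra d
      exact no ⟨I, h1, one p p1 p2 ▸ p1, y1, by omega, one⟩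
  by_contra no
  have out : ∀ p ∈ W, ∃ y c, p ∈ K y ∧ c ∈ K y ∧ lt y c p ∧ ∀ q ∈ K y, ¬ lt y q c := by
    intro p hp
    by_contra d
    refine no ⟨p, hp, fun I h1 h2 => (k3 I h1 h2).trans (card_le_card fun y hy => ?_)⟩
    obtain ⟨y1, q, q1, q2⟩ := mem_Nb.1 hy
    refine mem_Nb.2 ⟨y1, q, q1, mem_Fc.2 ⟨(mem_inter.1 (k1 y q2)).1, fun h => ?_⟩⟩
    obtain ⟨c, hc, low⟩ := exists_min_image ((K y).filter fun c => lt y c p)
      (fun c => ((K y).filter fun r => lt y r c).card) ⟨q, mem_filter.2 ⟨q2, h⟩⟩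
    obtain ⟨c1, c2⟩ := mem_filter.1 hc
    refine d ⟨y, c, k2 y q q2 p hp h, c1, c2, fun r r1 r2 => ?_⟩
    refine (low r (mem_filter.2 ⟨r1, tr y r c p r2 c2⟩)).not_gt (card_lt_card ⟨fun s hs => ?_,
      fun k => ir y r (mem_filter.1 (k (mem_filter.2 ⟨r1, r2⟩))).2⟩)
    exact mem_filter.2 ⟨(mem_filter.1 hs).1, tr y s r c (mem_filter.1 hs).2 r2⟩
  have : Nonempty (Fin n) := let ⟨p, hp⟩ := hW; let ⟨y, _⟩ := out p hp; ⟨y⟩
  have : Nonempty X := let ⟨p, _⟩ := hW; ⟨p⟩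
  choose! l f o1 o2 o3 o4 using out
  choose! V v1 v2 v3 v4 v5 using fun p hp => crit (l p) (f p) (o2 p hp) (o4 p hp)
  obtain ⟨C, hC, low⟩ := exists_min_image (W.powerset.filter fun C => C.Nonempty ∧ ∀ p ∈ C, f p ∈ C)
    card ⟨W, mem_filter.2 ⟨mem_powerset_self _, hW, fun p hp => v1 p hp (v2 p hp)⟩⟩
  obtain ⟨c1, ⟨p0, hp0⟩, c3⟩ := mem_filter.1 hC
  rw [mem_powerset] at c1
  have exit : ∀ p ∈ C, ∃ q ∈ C, q ∈ V p ∧ f q ∉ V p := by
    intro p hp
    by_contra d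
    push Not at d
    refine (low (C ∩ V p) (mem_filter.2 ⟨mem_powerset.2 (inter_subset_left.trans c1),
      ⟨f p, mem_inter.2 ⟨c3 p hp, v2 p (c1 hp)⟩⟩, fun q hq => mem_inter.2
        ⟨c3 q (mem_inter.1 hq).1, d q (mem_inter.1 hq).1 (mem_inter.1 hq).2⟩⟩)).not_gt
      (card_lt_card ⟨inter_subset_left, fun k => ?_⟩)
    have := o3 p (c1 hp)
    rw [← v5 p (c1 hp) p (mem_inter.1 (k hp)).2 (o1 p (c1 hp))] at this
    exact ir _ _ this
  obtain ⟨U, hU, top⟩ := exists_max_image (W.powerset.filter fun U =>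
    (Nb K Y U).card ≤ U.card + 1 ∧ ∃ q ∈ C, q ∈ U ∧ f q ∉ U) card
    ⟨V p0, mem_filter.2 ⟨mem_powerset.2 (v1 p0 (c1 hp0)), v4 p0 (c1 hp0), exit p0 hp0⟩⟩
  obtain ⟨u1, u2, p, p1, p2, p3⟩ := mem_filter.1 hU
  rw [mem_powerset] at u1
  have pW := c1 p1
  obtain ⟨t1, -, t3⟩ := tight_union k3 u1 (v1 p pW) u2 (v4 p pW) (y := l p)
    (mem_Nb.2 ⟨v3 p pW, p, p2, o1 p pW⟩) (mem_Nb.2 ⟨v3 p pW, f p, v2 p pW, o2 p pW⟩) fun h => by
      obtain ⟨-, q, q1, q2⟩ := mem_Nb.1 h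
      exact p3 (v5 p pW q (mem_inter.1 q1).2 q2 ▸ (mem_inter.1 q1).1)
  obtain ⟨q, q1, q2, q3⟩ := exit p p1
  have qW := c1 q1
  refine (top (U ∪ V p) (mem_filter.2 ⟨mem_powerset.2 (union_subset u1 (v1 p pW)), t1, q, q1,
    mem_union_right _ q2, fun h => ?_⟩)).not_gt
    (card_lt_card ⟨subset_union_left, fun k => p3 (k (mem_union_right _ (v2 p pW)))⟩)
  have e := t3 (l q) (mem_Nb.2 ⟨v3 q qW, f q, (mem_union.1 h).resolve_right q3, o2 q qW⟩)
    (mem_Nb.2 ⟨v3 q qW, q, q2, o1 q qW⟩)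
  exact o4 p pW (f q) (e ▸ o2 q qW) (v5 p pW q q2 (e ▸ o1 q qW) ▸ e ▸ o3 q qW)

theorem inside_le (hB : Base P H) (W : Finset X) (hW : W ⊆ P) (hWP : W ≠ P)
    (J : Finset (Fin n)) (hJ : ∀ y ∈ J, H y ⊆ W) : J.card ≤ W.card - 1 := by
  rcases W.eq_empty_or_nonempty with rfl | hne
  · rcases J.eq_empty_or_nonempty with rfl | ⟨y, hy⟩
    · simp
    have := hB.dh.two hB.card hB.two y
    rw [subset_empty.1 (hJ y hy)] at this
    simp at this
  have c1 := hB.dh.inside hB.card W hW hne hWP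
  have c2 : J.card ≤ _ := card_le_card (show J ⊆ univ.filter (fun y => H y ⊆ W) from
    fun y hy => mem_filter.2 ⟨mem_univ _, hJ y hy⟩)
  omega

/-- The perfect hub.  Each label carries a strict order, and has a point of `L`; points of `L` are
below no point. -/
theorem perfect (hB : Base P H) (lt : Fin n → X → X → Prop) (mem : ∀ y p q, lt y p q → q ∈ H y)
    (tr : ∀ y p q r, lt y p q → lt y q r → lt y p r) (ir : ∀ y p, ¬ lt y p p) (L : X → Prop)
    (hL : ∀ h, L h → ∀ y q, ¬ lt y h q) (top : ∀ y, ∃ h ∈ H y, L h) :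
    ∃ a ∈ P, ∀ I ⊆ P.erase a, I.Nonempty → I.card + 1 ≤ (Nb (Fc H lt a) univ I).card := by
  classical
  by_contra no
  have hP := hB.card
  have hn := hB.two
  obtain ⟨τ, τ0, Lτ⟩ := top ⟨0, by omega⟩
  have τP := hB.sub _ τ0
  have key : ∀ m, ∀ W ⊆ P.erase τ, W.card = m → W.Nonempty → ∀ Y : Finset (Fin n),
      Y.card = W.card + 1 → (∀ I ⊆ W, I.Nonempty → I.card + 1 ≤ (Nb H Y I).card) →
      (∀ y ∉ Y, τ ∉ H y) → (∀ I ⊆ P.erase τ \ W,
        I.card + (if I.Nonempty ∧ ∀ h ∈ I, ¬ L h then 1 else 0) ≤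
          (Nb (fun y => (H y).filter fun p => ∀ a ∈ W, ¬ lt y p a) Yᶜ I).card) → False := by
    intro m
    induction m using Nat.strong_induction_on with
    | _ m ih =>
    intro W hW hm hne Y cY s1 s2 s3
    obtain ⟨a, aW, s4⟩ := sink lt mem tr ir Y W hne s1
    have aP := mem_of_mem_erase (hW aW)
    obtain ⟨F, hF⟩ : ∃ F, F = Fc H lt a := ⟨_, rfl⟩
    have mF : ∀ y p, p ∈ F y ↔ p ∈ H y ∧ ¬ lt y p a := fun y p => hF ▸ mem_Fc
    rw [← hF] at s4
    obtain ⟨I, hI, big⟩ := exists_max_image ((P.erase a).powerset.filter fun I =>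
      I.Nonempty ∧ (Nb F univ I).card ≤ I.card) card (by
        by_contra d
        refine no ⟨a, aP, fun I h1 h2 => ?_⟩
        by_contra d'
        exact d ⟨I, mem_filter.2 ⟨mem_powerset.2 h1, h2, by rw [hF]; omega⟩⟩)
    obtain ⟨i1, i2, i3⟩ := mem_filter.1 hI
    rw [mem_powerset] at i1
    have iP : I ⊆ P := i1.trans (erase_subset _ _)
    have aI : a ∉ I := fun h => notMem_erase a P (i1 h)
    have split : (Nb F univ I).card = (Nb F Y I).card + (Nb F Yᶜ I).card := by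
      rw [← card_union_of_disjoint (disjoint_left.2 fun y h1 h2 =>
        mem_compl.1 (mem_Nb.1 h2).1 (mem_Nb.1 h1).1)]
      congr 1
      ext y
      by_cases k : y ∈ Y <;> simp [mem_Nb, k]
    have old : ∀ J ⊆ I, Nb (fun y => (H y).filter fun p => ∀ a ∈ W, ¬ lt y p a) Yᶜ J ⊆
        Nb F Yᶜ I := fun J hJ y hy => by
      obtain ⟨y1, p, p1, p2⟩ := mem_Nb.1 hy
      exact mem_Nb.2 ⟨y1, p, hJ p1, (mF _ _).2 ⟨(mem_filter.1 p2).1, (mem_filter.1 p2).2 a aW⟩⟩
    have z1 : I.erase τ \ W ⊆ P.erase τ \ W := sdiff_subset_sdiff (erase_subset_erase _ iP) Subset.rfl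
    have c1 := (s3 _ z1).trans (card_le_card (old _ (sdiff_subset.trans (erase_subset _ _))))
    have c2 := card_sdiff_add_card_inter (I.erase τ) W
    have e2 : I.erase τ ∩ W = I ∩ W := by
      ext p
      simp only [mem_inter, mem_erase]
      exact ⟨fun h => ⟨h.1.2, h.2⟩, fun h => ⟨⟨(mem_erase.1 (hW h.2)).1, h.1⟩, h.2⟩⟩
    rw [e2] at c2
    have inY : ∀ h ∈ I, L h → ∀ y, τ ∈ H y → h ∈ H y → y ∈ Nb F Y I := fun h h1 h2 y y1 y2 =>
      mem_Nb.2 ⟨by_contra fun d => s2 y d y1, h, h1, (mF _ _).2 ⟨y2, hL h h2 y a⟩⟩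
    have mono : Nb F Y (I ∩ W) ⊆ Nb F Y I := fun y hy => by
      obtain ⟨y1, p, p1, p2⟩ := mem_Nb.1 hy
      exact mem_Nb.2 ⟨y1, p, (mem_inter.1 p1).1, p2⟩
    have ne : (I ∩ W).Nonempty := by
      by_contra d
      rw [not_nonempty_iff_eq_empty] at d
      rw [d, card_empty] at c2
      by_cases k : τ ∈ I
      · obtain ⟨u, u', d1, d2, d3⟩ := hB.dh.pair τP aP (mem_erase.1 (hW aW)).1.symm
        have := one_lt_card.2 ⟨u, inY τ k Lτ u d2.1 d2.1, u', inY τ k Lτ u' d3.1 d3.1, d1⟩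
        have := card_erase_add_one k
        omega
      rw [erase_eq_of_notMem k] at c1 c2
      rw [sdiff_eq_self_of_disjoint (disjoint_iff_inter_eq_empty.2 d)] at c1
      split_ifs at c1 with k'
      · omega
      rw [not_and] at k'
      have k2 := k' i2
      push Not at k2
      obtain ⟨h, h1, h2⟩ := k2
      obtain ⟨u, -, -, d2, -⟩ := hB.dh.pair τP (iP h1) fun e => k (e ▸ h1)
      have := card_pos.2 ⟨u, inY h h1 h2 u d2.1 d2.2⟩
      omega
    have c3 := s4 _ inter_subset_right ne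
    have c4 := card_le_card mono
    have τI : τ ∈ I := by
      by_contra k
      rw [erase_eq_of_notMem k] at c1 c2
      omega
    have c5 := card_erase_add_one τI
    have cI : (Nb F univ I).card = I.card := by omega
    have c6 := card_compl (Nb F univ I)
    have c7 := card_sdiff_add_card_eq_card iP
    rw [Fintype.card_fin] at c6
    have low : ∀ y ∉ Nb F univ I, ∀ p ∈ I, p ∈ H y → lt y p a := fun y hy p p1 p2 =>
      by_contra fun d => hy (mem_Nb.2 ⟨mem_univ _, p, p1, (mF _ _).2 ⟨p2, d⟩⟩)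
    refine ih (I ∩ W).card (hm ▸ card_lt_card ⟨inter_subset_right, fun k =>
      aI (mem_inter.1 (k aW)).1⟩) (I ∩ W) (inter_subset_right.trans hW) rfl ne (Nb F Y I)
      (by omega) (fun J h1 h2 => (s4 J (h1.trans inter_subset_right) h2).trans
        (card_le_card fun y hy => ?_)) (fun y hy k => hy (inY τ τI Lτ y k k)) fun J hJ => ?_
    · obtain ⟨y1, p, p1, p2⟩ := mem_Nb.1 hy
      exact mem_Nb.2 ⟨mem_Nb.2 ⟨y1, p, (mem_inter.1 (h1 p1)).1, p2⟩, p, p1, ((mF _ _).1 p2).1⟩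
    have JP : J ⊆ P := hJ.trans (sdiff_subset.trans (erase_subset _ _))
    have d1 := s3 (J ∩ I) fun p hp => mem_sdiff.2 ⟨(mem_sdiff.1 (hJ (mem_inter.1 hp).1)).1,
      fun k => (mem_sdiff.1 (hJ (mem_inter.1 hp).1)).2 (mem_inter.2 ⟨(mem_inter.1 hp).2, k⟩)⟩
    have d2 := card_sdiff_add_card_inter J I
    have d3 : (Nb (fun y => (H y).filter fun p => ∀ a ∈ W, ¬ lt y p a) Yᶜ (J ∩ I)).card +
        (Nb F (Nb F univ I)ᶜ (J \ I)).card ≤
        (Nb (fun y => (H y).filter fun p => ∀ a ∈ I ∩ W, ¬ lt y p a) (Nb F Y I)ᶜ J).card := by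
      rw [← card_union_of_disjoint (disjoint_left.2 fun y h1 h2 => mem_compl.1 (mem_Nb.1 h2).1
        (mem_Nb.2 ⟨mem_univ _, (mem_Nb.1 (old _ inter_subset_right h1)).2⟩))]
      refine card_le_card fun y hy => ?_
      rcases mem_union.1 hy with hy | hy <;> obtain ⟨y1, p, p1, p2⟩ := mem_Nb.1 hy
      · exact mem_Nb.2 ⟨mem_compl.2 fun k => mem_compl.1 y1 (mem_Nb.1 k).1, p, (mem_inter.1 p1).1,
          mem_filter.2 ⟨(mem_filter.1 p2).1, fun b hb => (mem_filter.1 p2).2 b (mem_inter.1 hb).2⟩⟩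
      · exact mem_Nb.2 ⟨mem_compl.2 fun k => mem_compl.1 y1 (mem_Nb.2 ⟨mem_univ _, (mem_Nb.1 k).2⟩),
          p, (mem_sdiff.1 p1).1, mem_filter.2 ⟨((mF _ _).1 p2).1, fun b hb k => ((mF _ _).1 p2).2
            (tr y p b a k (low y (mem_compl.1 y1) b (mem_inter.1 hb).1 (mem y p b k)))⟩⟩
    have d4 : (J \ I).card + (if (J \ I).Nonempty ∧ ∀ h ∈ J, ¬ L h then 1 else 0) ≤
        (Nb F (Nb F univ I)ᶜ (J \ I)).card := by
      by_cases aJ : a ∈ J
      · have g1 : ((Nb F univ I)ᶜ \ Nb F (Nb F univ I)ᶜ (J \ I)).card ≤ ((P \ I) \ J).card - 1 := by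
          refine inside_le hB _ (sdiff_subset.trans sdiff_subset)
            (fun e => (mem_sdiff.1 (e.ge aP)).2 aJ) _ fun y hy p hp => ?_
          obtain ⟨y1, y2⟩ := mem_sdiff.1 hy
          have ay : a ∉ H y := fun k => y2 (mem_Nb.2 ⟨y1, a, mem_sdiff.2 ⟨aJ, aI⟩,
            (mF _ _).2 ⟨k, ir y a⟩⟩)
          have pI : p ∉ I := fun k => ay (mem y p a (low y (mem_compl.1 y1) p k hp))
          exact mem_sdiff.2 ⟨mem_sdiff.2 ⟨hB.sub y hp, pI⟩, fun k => y2 (mem_Nb.2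
            ⟨y1, p, mem_sdiff.2 ⟨k, pI⟩, (mF _ _).2 ⟨hp, fun k' => ay (mem y p a k')⟩⟩)⟩
        have g2 := card_sdiff_add_card_eq_card
          (show Nb F (Nb F univ I)ᶜ (J \ I) ⊆ (Nb F univ I)ᶜ from filter_subset _ _)
        have g3 : (P \ I) \ J = (P \ I) \ (J \ I) := by
          ext p
          simp only [mem_sdiff]
          tauto
        have g4 := card_sdiff_add_card_eq_card (sdiff_subset_sdiff JP (Subset.refl I))
        rw [← g3] at g4
        split_ifs with k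
        · have g5 : 0 < ((Nb F univ I)ᶜ).card := by
            have := card_pos.2 ⟨a, mem_sdiff.2 ⟨aP, aI⟩⟩
            omega
          obtain ⟨y, hy⟩ := card_pos.1 g5
          obtain ⟨h, h1, h2⟩ := top y
          have := card_pos.2 ⟨h, mem_sdiff.2 ⟨mem_sdiff.2 ⟨hB.sub y h1, fun d =>
            hL h h2 y a (low y (mem_compl.1 hy) h d h1)⟩, fun d => k.2 h d h2⟩⟩
          omega
        · omega
      rcases (J \ I).eq_empty_or_nonempty with e | e
      · simp [e]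
      have g1 : ¬ (Nb F univ (I ∪ J \ I)).card ≤ (I ∪ J \ I).card := fun k => by
        have := big _ (mem_filter.2 ⟨mem_powerset.2 (union_subset i1 fun p hp => mem_erase.2
          ⟨fun d => aJ (d ▸ (mem_sdiff.1 hp).1), JP (mem_sdiff.1 hp).1⟩),
          i2.mono subset_union_left, k⟩)
        rw [card_union_of_disjoint disjoint_sdiff] at this
        have := e.card_pos
        omega
      have g2 : (Nb F univ (I ∪ J \ I)).card ≤ (Nb F univ I ∪ Nb F (Nb F univ I)ᶜ (J \ I)).card := by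
        refine card_le_card fun y hy => ?_
        by_cases k : y ∈ Nb F univ I
        · exact mem_union_left _ k
        · rw [Nb_union] at hy
          exact mem_union_right _ (mem_Nb.2 ⟨mem_compl.2 k,
            (mem_Nb.1 ((mem_union.1 hy).resolve_left k)).2⟩)
      have g3 := card_union_le (Nb F univ I) (Nb F (Nb F univ I)ᶜ (J \ I))
      rw [card_union_of_disjoint disjoint_sdiff] at g1
      split_ifs <;> omega
    split_ifs with k
    · by_cases e : (J \ I).Nonempty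
      · rw [if_pos ⟨e, k.2⟩] at d4
        omega
      · have e' : J ∩ I = J := inter_eq_left.2 (sdiff_eq_empty_iff_subset.1
          (not_nonempty_iff_eq_empty.1 e))
        rw [e'] at d1 d3
        rw [if_pos k] at d1
        omega
    · omega
  have c0 := card_erase_add_one τP
  refine key _ _ Subset.rfl rfl (card_pos.1 (by omega)) univ (by simp; omega) (fun I h1 h2 => ?_)
    (by simp) fun I hI => ?_
  · have τI : τ ∉ I := fun h => notMem_erase τ P (h1 h)
    have c1 := card_insert_of_notMem τI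
    have c2 := h2.card_pos
    have c3 := hB.dh (insert τ I) (insert_subset τP (h1.trans (erase_subset _ _))) (by omega)
    refine (c1 ▸ c3).trans (card_le_card fun y hy => ?_)
    obtain ⟨p, p1, p2⟩ := exists_mem_ne (mem_filter.1 hy).2 τ
    exact mem_Nb.2 ⟨mem_univ _, p, (mem_insert.1 (mem_inter.1 p1).1).resolve_left p2,
      (mem_inter.1 p1).2⟩
  · rw [Finset.sdiff_self, subset_empty] at hI
    simp [hI]

end Pool.Agent.MP_3b4e7c_co.Hub
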