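import Pool.Agent.MP_3b4e7c_co.Gen3.Main

/-! General halfplanes: the frame in which all labels through a hub are sources. -/

namespace Pool.Agent.MP_3b4e7c_co.Hub

open Finset Up Function Real Gen Gen.Cyc Gen2 Gen3

variable {X : Type} [DecidableEq X] {n : ℕ} {P : Finset X} {H : Fin n → Finset X}

/-- each label moves to the tail of the next one in the list, the last one moves to `x` -/
def Rot (H : Fin n → Finset X) (t : Fin n → X) (x : X) : Fin n → List (Fin n) → Prop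
  | w, [] => x ∈ H w
  | w, z :: l => t z ∈ H w ∧ Rot H t x z l

theorem rot (hP : P.card = n) (b x : X) (t D : Fin n → X) (hD : ∀ y, D y ∈ H y)
    (l : List (Fin n)) : ∀ (T : Fin n → X) (w : Fin n), Pm (fun _ => P) T D → T w = x →
      Cn T D b x → (∀ y, y ≠ w → T y ∈ H y) → (∀ z ∈ l, T z = t z ∧ ¬ Cn T D b (t z)) →
      l.Pairwise (fun u v => ¬ Cn T D (t u) (t v)) → Rot H t x w l →
      ∃ T', Pm H T' D ∧ (∀ u v, Cn T D u v → Cn T' D u v) ∧ (∀ z ∈ l, Cn T' D b (t z)) ∧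
        (∀ y, y ≠ w → y ∉ l → T' y = T y) ∧
        ∀ z, ¬ Cn T D b z → (∀ v ∈ l, ¬ Cn T D (t v) z) → ¬ Cn T' D b z := by
  induction l with
  | nil =>
    intro T w hp hw _ h1 _ _ h4
    refine ⟨T, ⟨hp.ti, hp.hi, fun y => ?_, hD⟩, fun _ _ h => h, by simp, fun _ _ _ => rfl,
      fun z h _ => h⟩
    by_cases k : y = w
    · rw [k, hw]; exact h4
    · exact h1 y k
  | cons z l ih =>
    intro T w hp hw hb h1 h2 h3 h4
    obtain ⟨z1, z2⟩ := h2 z (by simp)
    obtain ⟨p1, p2⟩ := List.pairwise_cons.1 h3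
    obtain ⟨T1, a1, a2, a3, a4, a5, a6⟩ := swapT hP (fun _ => Subset.rfl) hp w z
      (by rw [hw, z1]; exact fun h => z2 (hb.tr h)) (hp.tm z) (hp.tm w)
    rw [z1] at a2
    rw [hw] at a3
    rw [hw, z1] at a6
    have down : ∀ q, ¬ Cn T D b q → ¬ Cn T D (t z) q → ∀ u, Cn T1 D q u → Cn T D q u := by
      intro q k1 k2 u hu
      refine (hu {x | Cn T D q x} fun y => ?_).1 (Cn.rf q)
      by_cases y1 : y = w
      · subst y1
        exact iff_of_false (fun h => k2 (a2 ▸ Cn.sy h))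
          (fun h => k1 ((hb.tr (hw ▸ Cn.edge y)).tr (Cn.sy h)))
      by_cases y2 : y = z
      · subst y2
        exact iff_of_false (fun h => k1 (hb.tr (a3 ▸ Cn.sy h)))
          (fun h => k2 ((z1 ▸ Cn.edge y : Cn T D (t y) (D y)).tr (Cn.sy h)))
      · rw [a4 y y1 y2]; exact cl_cn q y
    have ne : ∀ v ∈ l, v ≠ w ∧ v ≠ z := fun v hv =>
      ⟨fun h => (h2 v (by simp [hv])).2 (by rw [← (h2 v (by simp [hv])).1, h, hw]; exact hb),
        fun h => p1 v hv (h ▸ Cn.rf _)⟩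
    have zw : z ≠ w := fun h => z2 (by rw [← z1, h, hw]; exact hb)
    obtain ⟨T2, b1, b2, b3, b4, b5⟩ := ih T1 z a1 a3 (a5 _ _ hb) (fun y hy => by
        by_cases k : y = w
        · rw [k, a2]; exact h4.1
        · rw [a4 y k hy]; exact h1 y k)
      (fun v hv => ⟨(a4 v (ne v hv).1 (ne v hv).2).trans (h2 v (by simp [hv])).1, fun h =>
        (h2 v (by simp [hv])).2 (down _ (h2 v (by simp [hv])).2 (p1 v hv) _ h.sy).sy⟩)
      (p2.imp_of_mem fun {u v} hu _ k h =>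
        k (down _ (h2 u (by simp [hu])).2 (p1 u hu) _ h)) h4.2
    refine ⟨T2, b1, fun u v h => b2 _ _ (a5 _ _ h), fun v hv => ?_, fun y y1 y2 => ?_,
      fun q k1 k2 => b5 q (fun h => k1 (down q k1 (k2 z (by simp)) _ h.sy).sy) fun v hv h =>
        k2 v (by simp [hv]) (down q k1 (k2 z (by simp)) _ h.sy).sy⟩
    · rcases List.mem_cons.1 hv with rfl | hv
      · exact b2 _ _ ((a5 _ _ hb).tr a6)
      · exact b3 v hv
    · rw [List.mem_cons, not_or] at y2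
      rw [b4 y y2.1 y2.2, a4 y y1 y2.1]

/-- the cycles of the labels of the list are joined at the slot `w`, `x` -/
theorem slot (hP : P.card = n) (sub : ∀ y, H y ⊆ P) (b x : X) (t T D : Fin n → X)
    (hp : Pm H T D) (w : Fin n) (hw : At T D w x) (hb : Cn T D b x) (l : List (Fin n))
    (h1 : ∀ z ∈ l, T z = t z ∧ ¬ Cn T D b (t z))
    (h2 : l.Pairwise (fun u v => ¬ Cn T D (t u) (t v))) (h3 : Rot H t x w l) :
    ∃ T' D', Pm H T' D' ∧ Ext b T D T' D' ∧ (∀ z ∈ l, Cn T' D' b (t z)) ∧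
      (∀ y u, At T D y u → y ∉ l → (y ≠ w ∨ u ≠ x) → At T' D' y u) ∧
      ∀ z, ¬ Cn T D b z → (∀ v ∈ l, ¬ Cn T D (t v) z) → ¬ Cn T' D' b z := by
  obtain ⟨T1, D1, a1, a2, a3, a4, a5, -⟩ := orient hp w x hw
  have bw : Cn T D b (T w) := hb.tr hw.cn.sy
  obtain ⟨T2, b1, b2, b3, b4, b5⟩ := rot hP b x t D1 a1.hm l T1 w
    ⟨a1.ti, a1.hi, fun y => sub y (a1.tm y), fun y => sub y (a1.hm y)⟩ a2 ((a4 _ _).2 hb)
    (fun y _ => a1.tm y) (fun z hz => ⟨(a5 z fun h => (h1 z hz).2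
      ((h1 z hz).1 ▸ bw.tr h)).1.trans (h1 z hz).1, fun h => (h1 z hz).2 ((a4 _ _).1 h)⟩)
    (h2.imp fun k h => k ((a4 _ _).1 h)) h3
  have up : ∀ u v, Cn T D u v → Cn T2 D1 u v := fun u v h => b2 _ _ ((a4 _ _).2 h)
  refine ⟨T2, D1, b1, Ext.of hP sub sub hp b1 up fun q h => ?_, b3, fun y u k1 k2 k3 => ?_,
    fun z k1 k2 => b5 z (fun h => k1 ((a4 _ _).1 h)) fun v hv h => k2 v hv ((a4 _ _).1 h)⟩
  · have e := a5 q fun k => h (up _ _ (bw.tr k))
    exact ⟨(b4 q (fun k => h (k ▸ up _ _ bw)) fun k => h ((h1 q k).1 ▸ b3 q k)).trans e.1, e.2⟩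
  · rcases (a3 y u).2 k1 with h | h
    · by_cases k : y = w
      · exact absurd (by rw [← h, k, a2]) (k3.resolve_left fun c => c k)
      · exact Or.inl ((b4 y k k2).trans h)
    · exact Or.inr h

/-- all slots of the set `s` are used -/
theorem close {ι : Type} [DecidableEq ι] (hP : P.card = n) (sub : ∀ y, H y ⊆ P) (b : X)
    (t : Fin n → X) (w : ι → Fin n) (x : ι → X) (l : ι → List (Fin n))
    (hd : ∀ i j, w i = w j → x i = x j → i = j) (s : Finset ι) :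
    ∀ T D : Fin n → X, Pm H T D → (∀ i ∈ s, At T D (w i) (x i) ∧ Cn T D b (x i) ∧
      Rot H t (x i) (w i) (l i) ∧ (∀ z ∈ l i, T z = t z ∧ ¬ Cn T D b (t z)) ∧
      (l i).Pairwise (fun u v => ¬ Cn T D (t u) (t v)) ∧
      ∀ j ∈ s, i ≠ j → ∀ u ∈ l i, ∀ v ∈ l j, ¬ Cn T D (t u) (t v)) →
      ∃ T' D', Pm H T' D' ∧ Ext b T D T' D' ∧ ∀ i ∈ s, ∀ z ∈ l i, Cn T' D' b (t z) := by
  induction s using Finset.induction_on with
  | empty => exact fun T D hp _ => ⟨T, D, hp, Ext.rf, by simp⟩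
  | insert i s hi ih =>
    intro T D hp h
    obtain ⟨c1, c2, c3, c4, c5, c6⟩ := h i (mem_insert_self _ _)
    obtain ⟨T1, D1, a1, a2, a3, a4, a5⟩ := slot hP sub b (x i) t T D hp (w i) c1 c2 (l i) c4 c5 c3
    obtain ⟨T2, D2, b1, b2, b3⟩ := ih T1 D1 a1 fun j hj => by
      have ij : i ≠ j := fun e => hi (e ▸ hj)
      obtain ⟨d1, d2, d3, d4, d5, d6⟩ := h j (mem_insert_of_mem hj)
      have off : ∀ z ∈ l j, ¬ Cn T1 D1 b (t z) := fun z hz =>
        a5 _ (d4 z hz).2 fun v hv => c6 j (mem_insert_of_mem hj) ij v hv z hz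
      refine ⟨a4 _ _ d1 (fun k => (c4 _ k).2 ((c4 _ k).1 ▸ d2.tr d1.cn.sy)) ?_, a2.up _ _ d2, d3,
        fun z hz => ⟨?_, off z hz⟩, d5.imp_of_mem fun {u v} hu _ k c => k (a2.down (off u hu) c),
        fun m hm jm u hu v hv c => d6 m (mem_insert_of_mem hm) jm u hu v hv (a2.down (off u hu) c)⟩
      · by_contra k
        rw [not_or, not_not, not_not] at k
        exact ij (hd j i k.1 k.2).symm
      · exact (a2.at a1 hP sub hp sub ((d4 z hz).1 ▸ off z hz)).1.trans (d4 z hz).1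
    refine ⟨T2, D2, b1, a2.tr b2, fun j hj z hz => ?_⟩
    rcases mem_insert.1 hj with rfl | hj
    · exact b2.up _ _ (a3 z hz)
    · exact b3 j hj z hz

variable {T : Fin n → ℝ} {ht : ℝ → X → ℝ} {t hd : Fin n → X}

/-- the components without a label through `a` wind -/
theorem last (hB : Base P H) (hA : Ang P H T ht) (hG : Generic P T ht) (a τ : X) (c : ℝ)
    (τP : τ ∈ P) (top : ∀ x ∈ P, x ≠ τ → ht c x < ht c τ)
    (gen : ∀ y, ∀ k : ℤ, c - T y ≠ (2 * k + 1) * π) (A : Fin n) (aA : a ∈ H A) (d : X → ℝ)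
    (rk : X → ℕ) (hp : Pm H t hd) (hτ : Cn t hd a τ) (hL : ∀ y, a ∈ H y → Cn t hd a (t y))
    (cut : ∀ p, ht (d p) p ≤ ht (d p) a)
    (mx : ∀ y r, hd y = t r → ¬ Cn t hd a (t r) → Fl (T y - d (t r)) ≤ Fl (T r - d (t r)) ∧
      (rk (t y) < rk (t r) ∨ ¬ |T y - T r| < π)) : Ham P H := by
  classical
  have hP := hB.card
  have sub := hB.sub
  have aP := sub A aA
  have tP := fun y => sub y (hp.tm y)
  have hP' := fun y => sub y (hp.hm y)
  have nearY : ∀ y r : Fin n, ∃ k : ℤ, |T r - 2 * π * k - T y| < π := by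
    intro y r
    obtain ⟨k, hk⟩ := near (T r) (T y) (genT hG r y)
    exact ⟨k, by rwa [show T r - 2 * π * k - T y = T r - (T y + 2 * π * k) by ring]⟩
  choose μ hμ using nearY
  have free : ∀ y r, hd y = t r → ¬ Cn t hd a (t r) → a ∉ H y ∧ a ∉ H r := fun y r h k =>
    ⟨fun c => k (h ▸ (hL y c).tr (Cn.edge y)), fun c => k (hL r c)⟩
  have val : ∀ y r, hd y = t r → ¬ Cn t hd a (t r) →
      μ y r = Fl (T r - d (t r)) - Fl (T y - d (t r)) := by
    intro y r k1 k2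
    by_contra ne
    have e1 : Fl (T r + 2 * π * (-μ y r : ℤ) - d (t r)) = Fl (T r - d (t r)) - μ y r := by
      rw [show T r + 2 * π * (-μ y r : ℤ) - d (t r) = T r - d (t r) + 2 * π * (-μ y r : ℤ) by
        ring, Fl_add]
      ring
    have := sep hA (u := T r + 2 * π * (-μ y r : ℤ)) (v := T y) (c := d (t r))
      (by rw [e1]; omega) (by
        have := hμ y r
        push_cast
        rwa [show T r + 2 * π * -(μ y r : ℝ) - T y = T r - 2 * π * μ y r - T y by ring])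
      (cut (t r))
    rw [perZ hA, perZ hA] at this
    exact this.elim (fun h => (free y r k1 k2).2 (hA.up r _ (hp.tm r) a aP h))
      (fun h => (free y r k1 k2).1 (hA.up y _ (k1 ▸ hp.hm y) a aP h))
  have : Nonempty (Fin n) := ⟨A⟩
  choose! oo ho using surj hP hp.ti tP
  choose! ii hi using surj hP hp.hi hP'
  have io : ∀ y r, hd y = t r → μ (ii (t r)) (oo (t r)) = μ y r := fun y r h => by
    rw [hp.ti (ho _ (tP r)), hp.hi ((hi _ (tP r)).trans h.symm)]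
  refine wind hP hB.two sub hA hG a τ c τP top gen (fun p => μ (ii p) (oo p)) _ t hd rfl hp hτ
    ⟨fun y r h k => ?_, fun z hz hn => ?_, fun z hz hn => ?_⟩
  · rw [io y r h]
    exact hμ y r
  · have key : ∀ p ∈ comp P t hd z, 0 ≤ μ (ii p) (oo p) ∧
        (rk (t (ii p)) < rk p ∨ ¬ |T (ii p) - T (oo p)| < π) := by
      intro p hp'
      obtain ⟨h1, h2⟩ := mem_comp.1 hp'
      have a0 : hd (ii p) = t (oo p) := by rw [hi p h1, ho p h1]
      have a1 : ¬ Cn t hd a (t (oo p)) := by rw [ho p h1]; exact fun k => hn (k.tr h2.sy)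
      have a2 := val _ _ a0 a1
      have a3 := mx _ _ a0 a1
      rw [ho p h1] at a2 a3
      exact ⟨by omega, a3.2⟩
    obtain ⟨v, hv, low⟩ := exists_min_image (comp P t hd z) rk ⟨z, mem_comp.2 ⟨hz, Cn.rf z⟩⟩
    obtain ⟨v1, v2⟩ := mem_comp.1 hv
    have c1 : Cn t hd (t (ii v)) v := by
      have := Cn.edge (t := t) (hd := hd) (ii v)
      rwa [hi v v1] at this
    have lo := low _ (mem_comp.2 ⟨tP _, v2.tr c1.sy⟩)
    intro h0
    have z1 := (sum_eq_zero_iff_of_nonneg fun p hp' => (key p hp').1).1 h0 v hv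
    have := hμ (ii v) (oo v)
    rw [z1] at this
    exact (key v hv).2.resolve_left (by omega) (by rw [abs_sub_comm]; simpa using this)
  · refine ⟨A, hL A aA, fun y r h k1 k2 => ?_⟩
    have k : ¬ Cn t hd a (t r) := fun k => hn (k.tr k1.sy)
    rw [io y r h]
    exact zero_free hA (tP r) aP (hμ y r) (h ▸ hp.hm y) (hp.tm r) k2 aA (free y r h k).1
      (free y r h k).2

/-- The closing hypothesis.  For every way `E` in which the labels fall into cycles, with `A`, `B`,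
`g` in one cycle, one source of each other cycle that has a source is put into a list at a slot:
`g` at `e`, or a source of the main cycle at its tail. -/
def Clo (H : Fin n → Finset X) (Λ : Finset (Fin n)) (A B g : Fin n) (e : X) (t : Fin n → X) :
    Prop :=
  ∀ E : Fin n → Fin n → Prop, Equivalence E → E A B → E A g →
    ∃ l : Option (Fin n) → List (Fin n), Rot H t e g (l none) ∧
      (∀ w, l (some w) ≠ [] → w ∈ Λ ∧ E A w ∧ Rot H t (t w) w (l (some w))) ∧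
      (∀ i, ∀ z ∈ l i, z ∈ Λ ∧ ¬ E A z) ∧ (∀ i, (l i).Pairwise fun u v => ¬ E u v) ∧
      (∀ i j, i ≠ j → ∀ u ∈ l i, ∀ v ∈ l j, ¬ E u v) ∧
      ∀ z ∈ Λ, ¬ E A z → ∃ i, ∃ v ∈ l i, E v z

/-- The frame: `Λ` holds `g` and all labels through the hub `a`; `A`, `B` have the tail `a`, no
label has the tail `e`, and the hull vertex `τ` is `e` or the tail of a label of `Λ`. -/
theorem frame [Fintype X] (hB : Base P H) (hA : Ang P H T ht) (hG : Generic P T ht) (o : X)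
    (ho : o ∉ P) (Λ : Finset (Fin n)) (A B g : Fin n) (a e τ : X) (c : ℝ) (AB : A ≠ B)
    (hΛ : ∀ y, a ∈ H y → y ∈ Λ) (gΛ : g ∈ Λ) (eg : e ∈ H g) (t : Fin n → X) (tA : t A = a)
    (tB : t B = a) (tm : ∀ y, t y ∈ H y ∧ t y ≠ e)
    (ti : ∀ y z, y ≠ B → z ≠ B → t y = t z → y = z)
    (top : ∀ x ∈ P, x ≠ τ → ht c x < ht c τ) (gen : ∀ y, ∀ k : ℤ, c - T y ≠ (2 * k + 1) * π)
    (hτ : τ = e ∨ ∃ z ∈ Λ, t z = τ) (clo : Clo H Λ A B g e t) : Ham P H := by
  classical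
  have hP := hB.card
  have sub := hB.sub
  have aA : a ∈ H A := tA ▸ (tm A).1
  have aB : a ∈ H B := tB ▸ (tm B).1
  have ae : a ≠ e := tA ▸ (tm A).2
  have aP := sub A aA
  have eP := sub g eg
  have AΛ := hΛ A aA
  have BΛ := hΛ B aB
  obtain ⟨d, cut⟩ : ∃ d : X → ℝ, ∀ p, ht (d p) p ≤ ht (d p) a := by
    refine ⟨fun p => if ht 0 p ≤ ht 0 a then 0 else 0 + π, fun p => ?_⟩
    dsimp only
    split_ifs with h
    · exact h
    · rw [hA.anti, hA.anti]; linarith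
  have mZ : ∀ {y}, y ∉ Λ → y ∈ univ \ Λ := fun h => mem_sdiff.2 ⟨mem_univ _, h⟩
  have nB : ∀ {y}, y ∈ univ \ Λ → y ≠ B := fun h k => (mem_sdiff.1 h).2 (k ▸ BΛ)
  obtain ⟨k, t', s1, s2, s3⟩ := pot (H := H) (univ \ Λ) ((univ \ Λ).image t)
    (card_image_of_injOn fun y hy z hz h => ti y z (nB hy) (nB hz) h)
    (fun y p => Fl (T y - d p)) t (fun y hy z hz h => ti y z (nB hy) (nB hz) h)
    fun y hy => ⟨(tm y).1, mem_image_of_mem _ hy⟩
  obtain ⟨u, u1, u2⟩ : ∃ u : Fin n → X, (∀ y ∈ Λ, u y = t y) ∧ ∀ y ∉ Λ, u y = t' y :=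
    ⟨fun y => if y ∈ Λ then t y else t' y, fun y h => if_pos h, fun y h => if_neg h⟩
  have u3 : ∀ y ∉ Λ, ∃ z ∉ Λ, t z = u y := fun y hy => by
    obtain ⟨z, z1, z2⟩ := mem_image.1 (s2 y (mZ hy)).2
    exact ⟨z, (mem_sdiff.1 z1).2, z2.trans (u2 y hy).symm⟩
  have um : ∀ y, u y ∈ H y ∧ u y ≠ e := fun y => by
    by_cases h : y ∈ Λ
    · rw [u1 y h]; exact tm y
    · obtain ⟨z, -, z2⟩ := u3 y h
      exact ⟨u2 y h ▸ (s2 y (mZ h)).1, z2 ▸ (tm z).2⟩
  have ui : ∀ y z, y ≠ B → z ≠ B → u y = u z → y = z := by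
    have mix : ∀ y z, y ≠ B → y ∈ Λ → z ∉ Λ → u y ≠ u z := fun y z y1 y2 z1 h => by
      obtain ⟨w, w1, w2⟩ := u3 z z1
      exact w1 (ti y w y1 (fun k => w1 (k ▸ BΛ)) (by rw [w2, ← h, u1 y y2]) ▸ y2)
    intro y z y1 z1 h
    by_cases y2 : y ∈ Λ <;> by_cases z2 : z ∈ Λ
    · exact ti y z y1 z1 (by rwa [u1 y y2, u1 z z2] at h)
    · exact absurd h (mix y z y1 y2 z2)
    · exact absurd h.symm (mix z y z1 z2 y2)
    · exact s1 y (mZ y2) z (mZ z2) (by rwa [u2 y y2, u2 z z2] at h)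
  have uo : ∀ y ∉ Λ, ∀ z ∉ Λ, u y = u z → y = z := fun y hy z hz =>
    ui y z (fun k => hy (k ▸ BΛ)) fun k => hz (k ▸ BΛ)
  have hA' := liftA hA k
  have hG' := liftG hA hG k
  obtain ⟨T', hT⟩ : ∃ T' : Fin n → ℝ, T' = fun y => T y + 2 * π * k y := ⟨_, rfl⟩
  rw [← hT] at hA' hG'
  have fl : ∀ y ∉ Λ, ∀ r ∉ Λ, u r ∈ H y → Fl (T' y - d (u r)) ≤ Fl (T' r - d (u r)) := by
    intro y hy r hr h
    have e1 : ∀ z, Fl (T' z - d (u r)) = Fl (T z - d (u r)) + k z := fun z => by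
      rw [← Fl_add, hT]; congr 1; ring
    rw [e1, e1]
    rw [u2 r hr] at h ⊢
    linarith [s3 y (mZ hy) r (mZ hr) h]
  have mm : ∀ {y}, y ≠ g → y ∈ univ.erase g := fun hy => mem_erase.2 ⟨hy, mem_univ _⟩
  have cY : (univ.erase g).card + 1 = n := by rw [card_erase_add_one (mem_univ _)]; simp
  have cQ := card_erase_add_one aP
  obtain ⟨hd, rk, h1, h2⟩ := run X n P H H T' ht (univ.erase g) (P.erase a) u
    (fun y p => y ∈ Λ ∨ ∃ r ∉ Λ, u r = p ∧ ¬ |T' y - T' r| < π) o hA'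
    (erase_subset _ _) (fun h => ho (mem_of_mem_erase h)) (fun y _ => Or.inr fun _ _ => Iff.rfl) (by
      intro r _ _
      by_cases hr : r ∈ Λ
      · exact Or.inl fun _ => Or.inl hr
      refine Or.inr ⟨(um r).1, ?_, fun y _ _ h => ?_⟩
      · rintro (h | ⟨r', a1, a2, a3⟩)
        · exact hr h
        · exact a3 (by rw [uo r' a1 r hr a2]; simpa using pi_pos)
      · by_contra hh
        exact h (Or.inr ⟨r, hr, rfl, hh⟩)) (by
      intro S hS I i1 i2 i3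
      have c1 := card_le_card hS
      rcases I.eq_empty_or_nonempty with rfl | hI
      · rw [card_empty]; omega
      have c2 := card_insert_of_notMem fun h : a ∈ I => notMem_erase a P (i1 h)
      have c3 := hI.card_pos
      have c4 := hB.dh (insert a I) (insert_subset aP (i1.trans (erase_subset _ _))) (by omega)
      have c5 := N2_disj (H := H) (insert a I) S fun y hy => card_le_one.2 fun x hx z hz => by
        obtain ⟨x1, x2⟩ := mem_inter.1 hx
        obtain ⟨z1, z2⟩ := mem_inter.1 hz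
        by_cases ay : a ∈ H y
        · rw [(mem_insert.1 x1).resolve_right fun h => (i3 y hy x h x2).1 (Or.inl (hΛ y ay)),
            (mem_insert.1 z1).resolve_right fun h => (i3 y hy z h z2).1 (Or.inl (hΛ y ay))]
        · exact i2 y hy x ((mem_insert.1 x1).resolve_left fun h => ay (h ▸ x2)) z
            ((mem_insert.1 z1).resolve_left fun h => ay (h ▸ z2)) x2 z2
      omega)
  have hi : Injective (update hd g a) := inj1 g a (fun y z hy hz h => h1 (mm hy) (mm hz) h)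
    fun y hy => (mem_erase.1 (h2 y (mm hy)).1).1
  have v1 : update hd g a g = a := update_self ..
  have v2 : ∀ y, y ≠ g → update hd g a y = hd y := fun y h => update_of_ne h ..
  generalize update hd g a = D at hi v1 v2
  have Dm : ∀ y, y ≠ g → D y ∈ H y := fun y h => by rw [v2 y h]; exact (h2 y (mm h)).2.1
  have mAB : ∀ y, y ∈ ({A, B} : Finset (Fin n)) ↔ y = A ∨ y = B := fun y => by simp
  obtain ⟨t0, p0, q1, q2, q3⟩ := paths (t := u) hP {A, B} {a, e}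
    (by rw [card_pair AB, card_pair ae]) (insert_subset aP (by simpa using eP)) hi
    (fun y => by
      by_cases h : y = g
      · rwa [h, v1]
      · exact sub y (Dm y h))
    (fun y hy z hz => ui y z (fun h => hy (by simp [h])) fun h => hz (by simp [h]))
    fun y hy => ⟨sub y (um y).1, fun h => by
      rw [mAB, not_or] at hy
      rcases mem_insert.1 h with h | h
      · exact hy.1 (ui y A hy.2 AB (by rw [h, u1 A AΛ, tA]))
      · exact (um y).2 (mem_singleton.1 h)⟩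
  obtain ⟨x1, m1, e1⟩ := q2 e (by simp)
  obtain ⟨x2, m2, e2⟩ := q2 a (by simp)
  have d21 : x2 ≠ x1 := fun h => ae (by rw [← e1, ← e2, h])
  have nc : ¬ Cn t0 D a e := e2 ▸ e1 ▸ q3 x2 m2 x1 m1 d21
  have tx : ∀ y ∈ ({A, B} : Finset (Fin n)), t y = a ∧ a ∈ H y ∧ y ∈ Λ := fun y hy => by
    rcases (mAB y).1 hy with rfl | rfl
    exacts [⟨tA, aA, AΛ⟩, ⟨tB, aB, BΛ⟩]
  have t0u : ∀ y, y ≠ x1 → t0 y = u y := fun y hy => by
    by_cases h : y ∈ ({A, B} : Finset (Fin n))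
    · have : y = x2 := by
        rw [mAB] at h m1 m2
        rcases h with rfl | rfl <;> rcases m1 with rfl | rfl <;> rcases m2 with rfl | rfl <;>
          first | rfl | exact absurd rfl hy | exact absurd rfl d21
      rw [this, e2, u1 x2 (tx x2 m2).2.2, (tx x2 m2).1]
    · exact q1 y h
  have g1 : g ≠ x1 := fun h => nc (by rw [← v1, ← e1, h]; exact (Cn.edge x1).sy)
  obtain ⟨T1, D1, p1, b1, b2, ⟨-, b3, b4, b5⟩, b6, b7, b8, b9, -⟩ := merge
    (H := fun y => insert (t0 y) (insert (D y) (H y))) hP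
    (fun y => insert_subset (p0.tm y) (insert_subset (p0.hm y) (sub y)))
    ⟨p0.ti, p0.hi, fun y => by simp, fun y => by simp⟩ g x1 a e nc (Or.inr v1) (Or.inl e1)
    (by simp [eg]) (by simp [(tx x1 m1).2.1])
  have real : ∀ y x, At T1 D1 y x → x ∈ insert (t0 y) (insert (D y) (H y)) → x ∈ H y := by
    intro y x h hx
    by_cases y1 : y = g
    · subst y1
      rcases h with h | h
      · rwa [← h, b4]
      · rw [← h, b5 v1, t0u y g1]; exact (um y).1
    simp only [mem_insert] at hx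
    rcases hx with rfl | rfl | hx
    · by_cases y2 : y = x1
      · subst y2
        rw [e1] at h ⊢
        by_cases k : D y = e
        · exact k ▸ Dm y y1
        · exact ((ends b2 (b3 _ (Or.inr rfl) k) (fun c => y1 (hi (c.symm.trans v1.symm))) h).elim
            ae.symm (Ne.symm k)).elim
      · rw [t0u y y2]; exact (um y).1
    · exact Dm y y1
    · exact hx
  have r1 : Pm H T1 D1 := ⟨p1.ti, p1.hi, fun y => real y _ (Or.inl rfl) (p1.tm y),
    fun y => real y _ (Or.inr rfl) (p1.hm y)⟩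
  have x01 : Ext a t0 D T1 D1 := Ext.of hP (fun _ => Subset.rfl) sub p0 r1 b8 fun q h =>
    b7 q (fun k => h (b8 _ _ k)) (fun k => h (b9.tr (b8 _ _ k)))
  have atΛ : ∀ z ∈ Λ, At T1 D1 z (t z) := fun z hz => by
    by_cases z1 : z = g
    · exact Or.inr (by rw [z1, b5 v1, t0u g g1, u1 g gΛ])
    by_cases z2 : z = x1
    · rw [z2, (tx x1 m1).1]; exact b2
    · exact (b6 z z1 z2 _).2 (Or.inl (by rw [t0u z z2, u1 z hz]))
  have cA : Cn T1 D1 (T1 A) a := tA ▸ (atΛ A AΛ).cn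
  obtain ⟨l, l1, l2, l3, l4, l5, l6⟩ := clo (fun y z => Cn T1 D1 (T1 y) (T1 z))
    ⟨fun _ => Cn.rf _, Cn.sy, Cn.tr⟩ (cA.tr (tB ▸ (atΛ B BΛ).cn : Cn T1 D1 (T1 B) a).sy)
    ((cA.tr b9).tr b1.cn.sy)
  have sw : ∀ i j, ∀ y ∈ l i, ∀ z ∈ l j, Cn T1 D1 (t y) (t z) → Cn T1 D1 (T1 y) (T1 z) :=
    fun i j y hy z hz h => ((atΛ y (l3 i y hy).1).cn.tr h).tr (atΛ z (l3 j z hz).1).cn.sy
  obtain ⟨T2, D2, r2, x12, c2⟩ := close hP sub a t (fun i : Option (Fin n) => i.elim g id)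
    (fun i => i.elim e t) l (by
      rintro (_ | i) (_ | j) k1 k2
      · rfl
      · exact absurd k2.symm (tm j).2
      · exact absurd k2 (tm i).2
      · exact congrArg some k1) (univ.filter fun i => l i ≠ []) T1 D1 r1 fun i hi => by
      have off : ∀ z ∈ l i, ¬ Cn T1 D1 a (T1 z) := fun z hz h => (l3 i z hz).2 (cA.tr h)
      refine and_assoc.1 (and_assoc.1 ⟨?_, fun z hz => ⟨?_, fun h =>
        off z hz (h.tr (atΛ z (l3 i z hz).1).cn.sy)⟩,
        (l4 i).imp_of_mem fun {y z} hy hz k h => k (sw i i y hy z hz h),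
        fun j _ ij y hy z hz h => l5 i j ij y hy z hz (sw i j y hy z hz h)⟩)
      · rcases i with _ | i
        · exact ⟨⟨b1, b9⟩, l1⟩
        · obtain ⟨k1, k2, k3⟩ := l2 i (mem_filter.1 hi).2
          exact ⟨⟨atΛ i k1, (cA.sy.tr k2).tr (atΛ i k1).cn⟩, k3⟩
      · rw [(x01.same z (off z hz)).1, t0u z fun k => off z hz (k ▸ b2.cn.sy), u1 z (l3 i z hz).1]
  have onM : ∀ z ∈ Λ, Cn T2 D2 a (T1 z) := fun z hz => by
    by_cases h : Cn T1 D1 (T1 A) (T1 z)
    · exact x12.up _ _ (cA.sy.tr h)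
    · obtain ⟨i, v, k1, k2⟩ := l6 z hz h
      exact (c2 i (mem_filter.2 ⟨mem_univ _, List.ne_nil_of_mem k1⟩) v k1).tr
        (x12.up _ _ ((atΛ v (l3 i v k1).1).cn.sy.tr k2))
  have onM2 : ∀ z ∈ Λ, Cn T2 D2 a (T2 z) := fun z hz => by
    by_contra h
    exact h ((x12.same z h).1 ▸ onM z hz)
  have x02 := x01.tr x12
  have hτ' : Cn T2 D2 a τ ∧ τ ∈ P := by
    rcases hτ with rfl | ⟨z, hz, rfl⟩
    · exact ⟨x12.up _ _ b9, eP⟩
    · exact ⟨(onM z hz).tr (x12.up _ _ (atΛ z hz).cn), sub z (tm z).1⟩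
  refine last hB hA' hG' a τ c hτ'.2 top (fun y m h => gen y (m + k y) (by
      rw [hT] at h; push_cast; linarith)) A aA d rk r2 hτ'.1 (fun y hy => onM2 y (hΛ y hy)) cut
    fun y r h hn => ?_
  have hn' : ¬ Cn T2 D2 a (T2 y) := fun c => hn (h ▸ c.tr (Cn.edge y))
  have r0 : r ∉ Λ := fun c => hn (onM2 r c)
  have y0 : y ∉ Λ := fun c => hn' (onM2 y c)
  have yg : y ≠ g := fun c => y0 (c ▸ gΛ)
  have f1 := (x02.same r hn).1.trans (t0u r fun c => r0 (c ▸ (tx x1 m1).2.2))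
  have f2 := (x02.same y hn').1.trans (t0u y fun c => y0 (c ▸ (tx x1 m1).2.2))
  have f3 : hd y = u r := by rw [← v2 y yg, ← (x02.same y hn').2, h, f1]
  rw [f1, f2]
  refine ⟨fl y y0 r r0 (by rw [← f1, ← h]; exact r2.hm y), ?_⟩
  rcases (h2 y (mm yg)).2.2 with (c | ⟨r', k1, k2, k3⟩) | c
  · exact absurd c y0
  · exact Or.inr (uo r' k1 r r0 (k2.trans f3) ▸ k3)
  · exact Or.inl (f3 ▸ c)

omit [DecidableEq X] in
theorem Rot.app {x : X} {z : Fin n} {l2 : List (Fin n)} (h2 : Rot H t x z l2)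
    (l1 : List (Fin n)) : ∀ w, Rot H t (t z) w l1 → Rot H t x w (l1 ++ z :: l2) := by
  induction l1 with
  | nil => exact fun w h => ⟨h, h2⟩
  | cons y l ih => exact fun w h => ⟨h.1, ih y h.2⟩

/-- a family in which any two labels are joined by an arc has a path through all members -/
theorem redei (R : Finset (Fin n)) : ∀ (w : Fin n) (x : X), x ∈ H w →
    (∀ z ∈ R, t z ∈ H w ∧ x ∈ H z) → (∀ u ∈ R, ∀ v ∈ R, u ≠ v → t u ∈ H v ∨ t v ∈ H u) →
    ∃ l : List (Fin n), l.Nodup ∧ (∀ z, z ∈ l ↔ z ∈ R) ∧ Rot H t x w l := by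
  induction R using Finset.strongInduction with
  | H R ih =>
    intro w x h1 h2 h3
    rcases R.eq_empty_or_nonempty with rfl | ⟨z, hz⟩
    · exact ⟨[], List.nodup_nil, by simp, h1⟩
    have ss : ∀ p : Fin n → Prop, ∀ [DecidablePred p], (R.erase z).filter p ⊂ R := fun p _ =>
      lt_of_le_of_lt (filter_subset _ _) (erase_ssubset hz)
    obtain ⟨l1, a1, a2, a3⟩ := ih _ (ss fun u => t z ∈ H u) w (t z) (h2 z hz).1
      (fun u hu => ⟨(h2 u ((ss _).1 hu)).1, (mem_filter.1 hu).2⟩)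
      fun u hu v hv => h3 u ((ss _).1 hu) v ((ss _).1 hv)
    obtain ⟨l2, b1, b2, b3⟩ := ih _ (ss fun u => t z ∉ H u) z x (h2 z hz).2
      (fun u hu => ⟨(h3 u ((ss _).1 hu) z hz (mem_erase.1 (mem_filter.1 hu).1).1).resolve_right
        (mem_filter.1 hu).2, (h2 u ((ss _).1 hu)).2⟩)
      fun u hu v hv => h3 u ((ss _).1 hu) v ((ss _).1 hv)
    simp only [mem_filter, mem_erase] at a2 b2
    refine ⟨l1 ++ z :: l2, List.nodup_append.2 ⟨a1, List.nodup_cons.2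
      ⟨fun h => ((b2 z).1 h).1.1 rfl, b1⟩, fun u hu v hv k => ?_⟩, fun u => ?_, b3.app l1 w a3⟩
    · rcases List.mem_cons.1 hv with rfl | hv
      · exact ((a2 u).1 hu).1.1 k
      · exact ((b2 v).1 hv).2 (k ▸ ((a2 u).1 hu).2)
    · rw [List.mem_append, List.mem_cons, a2, b2]
      by_cases k : u = z
      · simp [k, hz]
      · tauto

omit [DecidableEq X] in
/-- the closing hypothesis follows if each set of sources can be put into lists -/
theorem clo_of_sets {Λ : Finset (Fin n)} {A B g : Fin n} {e : X}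
    (h : ∀ R ⊆ Λ, A ∉ R → B ∉ R → g ∉ R → ∃ l : Option (Fin n) → List (Fin n),
      Rot H t e g (l none) ∧ (∀ w, l (some w) ≠ [] → w ∈ Λ ∧ (w = A ∨ w = B ∨ w = g) ∧
        Rot H t (t w) w (l (some w))) ∧ (∀ i, (l i).Nodup) ∧ (∀ z, z ∈ R ↔ ∃ i, z ∈ l i) ∧
      ∀ i j, ∀ u ∈ l i, u ∈ l j → i = j) : Clo H Λ A B g e t := by
  classical
  intro E hE e1 e2
  have mR : ∀ z, z ∈ Λ.filter (fun z => ¬ E A z ∧ ∀ y ∈ Λ, E y z → z ≤ y) ↔
      z ∈ Λ ∧ ¬ E A z ∧ ∀ y ∈ Λ, E y z → z ≤ y := fun z => mem_filter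
  obtain ⟨l, l1, l2, l3, l4, l5⟩ := h _ (filter_subset _ _)
    (fun k => ((mR _).1 k).2.1 (hE.refl A)) (fun k => ((mR _).1 k).2.1 e1)
    fun k => ((mR _).1 k).2.1 e2
  have m : ∀ i, ∀ z ∈ l i, z ∈ Λ ∧ ¬ E A z ∧ ∀ y ∈ Λ, E y z → z ≤ y := fun i z hz =>
    (mR z).1 ((l4 z).2 ⟨i, hz⟩)
  have eq : ∀ i j, ∀ u ∈ l i, ∀ v ∈ l j, E u v → u = v := fun i j u hu v hv k =>
    le_antisymm ((m i u hu).2.2 v (m j v hv).1 (hE.symm k)) ((m j v hv).2.2 u (m i u hu).1 k)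
  refine ⟨l, l1, fun w hw => ⟨(l2 w hw).1, ?_, (l2 w hw).2.2⟩,
    fun i z hz => ⟨(m i z hz).1, (m i z hz).2.1⟩,
    fun i => (l3 i).imp_of_mem fun {u v} hu hv k c => k (eq i i u hu v hv c),
    fun i j ij u hu v hv c => ij (l5 i j u hu (eq i j u hu v hv c ▸ hv)), fun z hz k => ?_⟩
  · rcases (l2 w hw).2.1 with rfl | rfl | rfl
    exacts [hE.refl _, e1, e2]
  · obtain ⟨v, hv, low⟩ := exists_min_image (Λ.filter fun y => E y z) id
      ⟨z, mem_filter.2 ⟨hz, hE.refl z⟩⟩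
    obtain ⟨v1, v2⟩ := mem_filter.1 hv
    obtain ⟨i, hi⟩ := (l4 v).1 ((mR v).2 ⟨v1, fun c => k (hE.trans c v2), fun y hy c =>
      low y (mem_filter.2 ⟨hy, hE.trans c v2⟩)⟩)
    exact ⟨i, v, hi, v2⟩

/-- Classes: each source has a slot (`none` is `g` at `e`, `some w` is `w` at its tail), has its
tail in the label of the slot and holds the point of the slot; two sources of one slot are joined
by an arc. -/
theorem clo_of_cls {Λ : Finset (Fin n)} {A B g : Fin n} {e : X} (hA : A ∈ Λ) (hB : B ∈ Λ)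
    (hg : g ∈ Λ) (eg : e ∈ H g) (tm : ∀ y, t y ∈ H y) (cl : Fin n → Option (Fin n))
    (h1 : ∀ z ∈ Λ, z ≠ A → z ≠ B → z ≠ g →
      (cl z = none ∨ cl z = some A ∨ cl z = some B ∨ cl z = some g) ∧
        t z ∈ H ((cl z).elim g id) ∧ (cl z).elim e t ∈ H z)
    (h2 : ∀ u ∈ Λ, u ≠ A → u ≠ B → u ≠ g → ∀ v ∈ Λ, v ≠ A → v ≠ B → v ≠ g → cl u = cl v →
      u ≠ v → t u ∈ H v ∨ t v ∈ H u) : Clo H Λ A B g e t := by
  refine clo_of_sets fun R hR a b c => ?_
  have n1 : ∀ z ∈ R, z ≠ A := fun z hz k => a (k ▸ hz)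
  have n2 : ∀ z ∈ R, z ≠ B := fun z hz k => b (k ▸ hz)
  have n3 : ∀ z ∈ R, z ≠ g := fun z hz k => c (k ▸ hz)
  have k1 := fun z hz => h1 z (hR hz) (n1 z hz) (n2 z hz) (n3 z hz)
  choose l l1 l2 l3 using fun i : Option (Fin n) => redei (H := H) (t := t)
    (R.filter fun z => cl z = i) (i.elim g id) (i.elim e t)
    (by rcases i with _ | i; exacts [eg, tm i])
    (fun z hz => (mem_filter.1 hz).2 ▸ (k1 z (mem_filter.1 hz).1).2)
    fun u hu v hv => by
      obtain ⟨u1, u2⟩ := mem_filter.1 hu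
      obtain ⟨v1, v2⟩ := mem_filter.1 hv
      exact h2 u (hR u1) (n1 u u1) (n2 u u1) (n3 u u1) v (hR v1) (n1 v v1) (n2 v v1) (n3 v v1)
        (u2.trans v2.symm)
  simp only [mem_filter] at l2
  refine ⟨l, l3 none, fun w hw => ?_, l1, fun z => ⟨fun hz => ⟨cl z, (l2 _ z).2 ⟨hz, rfl⟩⟩,
    fun ⟨i, hi⟩ => ((l2 i z).1 hi).1⟩, fun i j u hi hj =>
      ((l2 i u).1 hi).2.symm.trans ((l2 j u).1 hj).2⟩
  obtain ⟨z, hz⟩ := List.exists_mem_of_ne_nil _ hw
  obtain ⟨z1, z2⟩ := (l2 _ z).1 hz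
  have : w = A ∨ w = B ∨ w = g := by simpa [z2] using (k1 z z1).1
  exact ⟨by rcases this with rfl | rfl | rfl <;> assumption, this, l3 (some w)⟩

end Pool.Agent.MP_3b4e7c_co.Hub
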