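import Pool.Agent.MP_3b4e7c_co.Hub.Frame

/-! General halfplanes: the hub frame with a weaker condition on the hull vertex. -/

namespace Pool.Agent.MP_3b4e7c_co.Hub

open Finset Up Function Real Gen Gen.Cyc Gen2 Gen3

variable {X : Type} [DecidableEq X] {n : ℕ} {P : Finset X} {H : Fin n → Finset X}
  {T : Fin n → ℝ} {ht : ℝ → X → ℝ} {t hd : Fin n → X}

/-- the components without a label through `a` wind, and their labels cover every hull vertex -/
theorem last2 (hB : Base P H) (hA : Ang P H T ht) (hG : Generic P T ht) (a τ : X) (c : ℝ)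
    (τP : τ ∈ P) (top : ∀ x ∈ P, x ≠ τ → ht c x < ht c τ)
    (gen : ∀ y, ∀ k : ℤ, c - T y ≠ (2 * k + 1) * π) (A : Fin n) (aA : a ∈ H A) (d : X → ℝ)
    (rk : X → ℕ) (hp : Pm H t hd) 
    (hτ : ¬ Cn t hd a τ → ∃ h ∈ P, ∃ c', (∀ x ∈ P, ht c' x ≤ ht c' h) ∧
      ∀ y, Cn t hd τ (t y) → h ∉ H y) (hL : ∀ y, a ∈ H y → Cn t hd a (t y))
    (cut : ∀ p, ht (d p) p ≤ ht (d p) a)
    (mx : ∀ y r, hd y = t r → ¬ Cn t hd a (t r) → Fl (T y - d (t r)) ≤ Fl (T r - d (t r)) ∧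
      (rk (t y) < rk (t r) ∨ ¬ |T y - T r| < π)) : Ham P H := by
  classical
  have hP := hB.card
  have sub := hB.sub
  have aP := sub A aA
  have tP := fun y => sub y (hp.tm y)
  have hP' := fun y => sub y (hp.hm y)
  have nearY : ∀ y r : Fin n, ∃ k : ℤ, |T r - 2 * π * k - T y| < π := by
    intro y r
    obtain ⟨k, hk⟩ := near (T r) (T y) (genT hG r y)
    exact ⟨k, by rwa [show T r - 2 * π * k - T y = T r - (T y + 2 * π * k) by ring]⟩
  choose μ hμ using nearY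
  have free : ∀ y r, hd y = t r → ¬ Cn t hd a (t r) → a ∉ H y ∧ a ∉ H r := fun y r h k =>
    ⟨fun c => k (h ▸ (hL y c).tr (Cn.edge y)), fun c => k (hL r c)⟩
  have val : ∀ y r, hd y = t r → ¬ Cn t hd a (t r) →
      μ y r = Fl (T r - d (t r)) - Fl (T y - d (t r)) := by
    intro y r k1 k2
    by_contra ne
    have e1 : Fl (T r + 2 * π * (-μ y r : ℤ) - d (t r)) = Fl (T r - d (t r)) - μ y r := by
      rw [show T r + 2 * π * (-μ y r : ℤ) - d (t r) = T r - d (t r) + 2 * π * (-μ y r : ℤ) by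
        ring, Fl_add]
      ring
    have := sep hA (u := T r + 2 * π * (-μ y r : ℤ)) (v := T y) (c := d (t r))
      (by rw [e1]; omega) (by
        have := hμ y r
        push_cast
        rwa [show T r + 2 * π * -(μ y r : ℝ) - T y = T r - 2 * π * μ y r - T y by ring])
      (cut (t r))
    rw [perZ hA, perZ hA] at this
    exact this.elim (fun h => (free y r k1 k2).2 (hA.up r _ (hp.tm r) a aP h))
      (fun h => (free y r k1 k2).1 (hA.up y _ (k1 ▸ hp.hm y) a aP h))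
  have : Nonempty (Fin n) := ⟨A⟩
  choose! oo ho using surj hP hp.ti tP
  choose! ii hi using surj hP hp.hi hP'
  have io : ∀ y r, hd y = t r → μ (ii (t r)) (oo (t r)) = μ y r := fun y r h => by
    rw [hp.ti (ho _ (tP r)), hp.hi ((hi _ (tP r)).trans h.symm)]
  suffices W : Wd P H T a (fun p => μ (ii p) (oo p)) t hd by
    refine wind hP hB.two sub hA hG a τ c τP top gen _ _ t hd rfl hp (by_contra fun hn => ?_) W
    obtain ⟨h, hh, c', top', miss⟩ := hτ hn
    have hZ : comp P t hd τ ⊆ P := fun p k => (mem_comp.1 k).1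
    have cl : ∀ y, t y ∈ comp P t hd τ ↔ hd y ∈ comp P t hd τ := fun y => by
      rw [mem_comp, mem_comp]
      exact and_congr (iff_of_true (tP y) (hP' y)) (cl_cn τ y)
    have e1 := sum_out hp.ti oo ho _ hZ (fun y => Fl (T y - c'))
    have e2 := sum_out hp.hi ii hi _ hZ (fun y => Fl (T y - c'))
    simp only [cl] at e1
    refine W.sum τ τP hn ?_
    rw [← sub_self (∑ y, if hd y ∈ comp P t hd τ then Fl (T y - c') else 0)]
    nth_rewrite 1 [← e1]
    rw [← e2, ← sum_sub_distrib]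
    refine sum_congr rfl fun p k => ?_
    obtain ⟨k1, k2⟩ := mem_comp.1 k
    have m1 : p ∈ H (oo p) := by have := hp.tm (oo p); rwa [ho p k1] at this
    have m2 : p ∈ H (ii p) := by have := hp.hm (ii p); rwa [hi p k1] at this
    have c1 : Cn t hd (t (ii p)) p := by
      have := Cn.edge (t := t) (hd := hd) (ii p)
      rwa [hi p k1] at this
    by_contra ne
    have e3 : Fl (T (oo p) + 2 * π * (-μ (ii p) (oo p) : ℤ) - c') =
        Fl (T (oo p) - c') - μ (ii p) (oo p) := by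
      rw [show T (oo p) + 2 * π * (-μ (ii p) (oo p) : ℤ) - c' =
        T (oo p) - c' + 2 * π * (-μ (ii p) (oo p) : ℤ) by ring, Fl_add]
      ring
    have := sep hA (u := T (oo p) + 2 * π * (-μ (ii p) (oo p) : ℤ)) (v := T (ii p)) (c := c')
      (by rw [e3]; omega) (by
        have := hμ (ii p) (oo p)
        push_cast
        rwa [show T (oo p) + 2 * π * -(μ (ii p) (oo p) : ℝ) - T (ii p) =
          T (oo p) - 2 * π * μ (ii p) (oo p) - T (ii p) by ring]) (top' p k1)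
    rw [perZ hA, perZ hA] at this
    exact this.elim (fun q => miss (oo p) (by rwa [ho p k1]) (hA.up _ p m1 h hh q))
      fun q => miss (ii p) (k2.tr c1.sy) (hA.up _ p m2 h hh q)
  refine ⟨fun y r h k => ?_, fun z hz hn => ?_, fun z hz hn => ?_⟩
  · rw [io y r h]
    exact hμ y r
  · have key : ∀ p ∈ comp P t hd z, 0 ≤ μ (ii p) (oo p) ∧
        (rk (t (ii p)) < rk p ∨ ¬ |T (ii p) - T (oo p)| < π) := by
      intro p hp'
      obtain ⟨h1, h2⟩ := mem_comp.1 hp'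
      have a0 : hd (ii p) = t (oo p) := by rw [hi p h1, ho p h1]
      have a1 : ¬ Cn t hd a (t (oo p)) := by rw [ho p h1]; exact fun k => hn (k.tr h2.sy)
      have a2 := val _ _ a0 a1
      have a3 := mx _ _ a0 a1
      rw [ho p h1] at a2 a3
      exact ⟨by omega, a3.2⟩
    obtain ⟨v, hv, low⟩ := exists_min_image (comp P t hd z) rk ⟨z, mem_comp.2 ⟨hz, Cn.rf z⟩⟩
    obtain ⟨v1, v2⟩ := mem_comp.1 hv
    have c1 : Cn t hd (t (ii v)) v := by
      have := Cn.edge (t := t) (hd := hd) (ii v)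
      rwa [hi v v1] at this
    have lo := low _ (mem_comp.2 ⟨tP _, v2.tr c1.sy⟩)
    intro h0
    have z1 := (sum_eq_zero_iff_of_nonneg fun p hp' => (key p hp').1).1 h0 v hv
    have := hμ (ii v) (oo v)
    rw [z1] at this
    exact (key v hv).2.resolve_left (by omega) (by rw [abs_sub_comm]; simpa using this)
  · refine ⟨A, hL A aA, fun y r h k1 k2 => ?_⟩
    have k : ¬ Cn t hd a (t r) := fun k => hn (k.tr k1.sy)
    rw [io y r h]
    exact zero_free hA (tP r) aP (hμ y r) (h ▸ hp.hm y) (hp.tm r) k2 aA (free y r h k).1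
      (free y r h k).2

/-- The frame: `Λ` holds `g` and all labels through the hub `a`; `A`, `B` have the tail `a`, no
label has the tail `e`.  The hull vertex `τ` is `e`, or the tail of a label of `Λ`, or the tail of
a label in a set `S` that is closed among the labels outside `Λ` and misses a hull vertex. -/
theorem frame2 [Fintype X] (hB : Base P H) (hA : Ang P H T ht) (hG : Generic P T ht) (o : X)
    (ho : o ∉ P) (Λ : Finset (Fin n)) (A B g : Fin n) (a e τ : X) (c : ℝ) (AB : A ≠ B)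
    (hΛ : ∀ y, a ∈ H y → y ∈ Λ) (gΛ : g ∈ Λ) (eg : e ∈ H g) (t : Fin n → X) (tA : t A = a)
    (tB : t B = a) (tm : ∀ y, t y ∈ H y ∧ t y ≠ e)
    (ti : ∀ y z, y ≠ B → z ≠ B → t y = t z → y = z)
    (top : ∀ x ∈ P, x ≠ τ → ht c x < ht c τ) (gen : ∀ y, ∀ k : ℤ, c - T y ≠ (2 * k + 1) * π)
    (hτ : τ = e ∨ (∃ z ∈ Λ, t z = τ) ∨ ∃ S : Finset (Fin n), (∃ y ∈ S, t y = τ) ∧
      (∀ y ∈ S, y ∉ Λ ∧ ∀ z ∉ Λ, t z ∈ H y → z ∈ S) ∧
      ∃ h ∈ P, ∃ c', (∀ x ∈ P, ht c' x ≤ ht c' h) ∧ ∀ y ∈ S, h ∉ H y)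
    (clo : Clo H Λ A B g e t) : Ham P H := by
  classical
  have hP := hB.card
  have sub := hB.sub
  have aA : a ∈ H A := tA ▸ (tm A).1
  have aB : a ∈ H B := tB ▸ (tm B).1
  have ae : a ≠ e := tA ▸ (tm A).2
  have aP := sub A aA
  have eP := sub g eg
  have AΛ := hΛ A aA
  have BΛ := hΛ B aB
  obtain ⟨d, cut⟩ : ∃ d : X → ℝ, ∀ p, ht (d p) p ≤ ht (d p) a := by
    refine ⟨fun p => if ht 0 p ≤ ht 0 a then 0 else 0 + π, fun p => ?_⟩
    dsimp only
    split_ifs with h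
    · exact h
    · rw [hA.anti, hA.anti]; linarith
  have mZ : ∀ {y}, y ∉ Λ → y ∈ univ \ Λ := fun h => mem_sdiff.2 ⟨mem_univ _, h⟩
  have nB : ∀ {y}, y ∈ univ \ Λ → y ≠ B := fun h k => (mem_sdiff.1 h).2 (k ▸ BΛ)
  obtain ⟨k, t', s1, s2, s3⟩ := pot (H := H) (univ \ Λ) ((univ \ Λ).image t)
    (card_image_of_injOn fun y hy z hz h => ti y z (nB hy) (nB hz) h)
    (fun y p => Fl (T y - d p)) t (fun y hy z hz h => ti y z (nB hy) (nB hz) h)
    fun y hy => ⟨(tm y).1, mem_image_of_mem _ hy⟩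
  obtain ⟨u, u1, u2⟩ : ∃ u : Fin n → X, (∀ y ∈ Λ, u y = t y) ∧ ∀ y ∉ Λ, u y = t' y :=
    ⟨fun y => if y ∈ Λ then t y else t' y, fun y h => if_pos h, fun y h => if_neg h⟩
  have u3 : ∀ y ∉ Λ, ∃ z ∉ Λ, t z = u y := fun y hy => by
    obtain ⟨z, z1, z2⟩ := mem_image.1 (s2 y (mZ hy)).2
    exact ⟨z, (mem_sdiff.1 z1).2, z2.trans (u2 y hy).symm⟩
  have um : ∀ y, u y ∈ H y ∧ u y ≠ e := fun y => by
    by_cases h : y ∈ Λ
    · rw [u1 y h]; exact tm y
    · obtain ⟨z, -, z2⟩ := u3 y h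
      exact ⟨u2 y h ▸ (s2 y (mZ h)).1, z2 ▸ (tm z).2⟩
  have ui : ∀ y z, y ≠ B → z ≠ B → u y = u z → y = z := by
    have mix : ∀ y z, y ≠ B → y ∈ Λ → z ∉ Λ → u y ≠ u z := fun y z y1 y2 z1 h => by
      obtain ⟨w, w1, w2⟩ := u3 z z1
      exact w1 (ti y w y1 (fun k => w1 (k ▸ BΛ)) (by rw [w2, ← h, u1 y y2]) ▸ y2)
    intro y z y1 z1 h
    by_cases y2 : y ∈ Λ <;> by_cases z2 : z ∈ Λ
    · exact ti y z y1 z1 (by rwa [u1 y y2, u1 z z2] at h)
    · exact absurd h (mix y z y1 y2 z2)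
    · exact absurd h.symm (mix z y z1 z2 y2)
    · exact s1 y (mZ y2) z (mZ z2) (by rwa [u2 y y2, u2 z z2] at h)
  have uo : ∀ y ∉ Λ, ∀ z ∉ Λ, u y = u z → y = z := fun y hy z hz =>
    ui y z (fun k => hy (k ▸ BΛ)) fun k => hz (k ▸ BΛ)
  have hA' := liftA hA k
  have hG' := liftG hA hG k
  obtain ⟨T', hT⟩ : ∃ T' : Fin n → ℝ, T' = fun y => T y + 2 * π * k y := ⟨_, rfl⟩
  rw [← hT] at hA' hG'
  have fl : ∀ y ∉ Λ, ∀ r ∉ Λ, u r ∈ H y → Fl (T' y - d (u r)) ≤ Fl (T' r - d (u r)) := by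
    intro y hy r hr h
    have e1 : ∀ z, Fl (T' z - d (u r)) = Fl (T z - d (u r)) + k z := fun z => by
      rw [← Fl_add, hT]; congr 1; ring
    rw [e1, e1]
    rw [u2 r hr] at h ⊢
    linarith [s3 y (mZ hy) r (mZ hr) h]
  have mm : ∀ {y}, y ≠ g → y ∈ univ.erase g := fun hy => mem_erase.2 ⟨hy, mem_univ _⟩
  have cY : (univ.erase g).card + 1 = n := by rw [card_erase_add_one (mem_univ _)]; simp
  have cQ := card_erase_add_one aP
  obtain ⟨hd, rk, h1, h2⟩ := run X n P H H T' ht (univ.erase g) (P.erase a) u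
    (fun y p => y ∈ Λ ∨ ∃ r ∉ Λ, u r = p ∧ ¬ |T' y - T' r| < π) o hA'
    (erase_subset _ _) (fun h => ho (mem_of_mem_erase h)) (fun y _ => Or.inr fun _ _ => Iff.rfl) (by
      intro r _ _
      by_cases hr : r ∈ Λ
      · exact Or.inl fun _ => Or.inl hr
      refine Or.inr ⟨(um r).1, ?_, fun y _ _ h => ?_⟩
      · rintro (h | ⟨r', a1, a2, a3⟩)
        · exact hr h
        · exact a3 (by rw [uo r' a1 r hr a2]; simpa using pi_pos)
      · by_contra hh
        exact h (Or.inr ⟨r, hr, rfl, hh⟩)) (by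
      intro S hS I i1 i2 i3
      have c1 := card_le_card hS
      rcases I.eq_empty_or_nonempty with rfl | hI
      · rw [card_empty]; omega
      have c2 := card_insert_of_notMem fun h : a ∈ I => notMem_erase a P (i1 h)
      have c3 := hI.card_pos
      have c4 := hB.dh (insert a I) (insert_subset aP (i1.trans (erase_subset _ _))) (by omega)
      have c5 := N2_disj (H := H) (insert a I) S fun y hy => card_le_one.2 fun x hx z hz => by
        obtain ⟨x1, x2⟩ := mem_inter.1 hx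
        obtain ⟨z1, z2⟩ := mem_inter.1 hz
        by_cases ay : a ∈ H y
        · rw [(mem_insert.1 x1).resolve_right fun h => (i3 y hy x h x2).1 (Or.inl (hΛ y ay)),
            (mem_insert.1 z1).resolve_right fun h => (i3 y hy z h z2).1 (Or.inl (hΛ y ay))]
        · exact i2 y hy x ((mem_insert.1 x1).resolve_left fun h => ay (h ▸ x2)) z
            ((mem_insert.1 z1).resolve_left fun h => ay (h ▸ z2)) x2 z2
      omega)
  have hi : Injective (update hd g a) := inj1 g a (fun y z hy hz h => h1 (mm hy) (mm hz) h)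
    fun y hy => (mem_erase.1 (h2 y (mm hy)).1).1
  have v1 : update hd g a g = a := update_self ..
  have v2 : ∀ y, y ≠ g → update hd g a y = hd y := fun y h => update_of_ne h ..
  generalize update hd g a = D at hi v1 v2
  have Dm : ∀ y, y ≠ g → D y ∈ H y := fun y h => by rw [v2 y h]; exact (h2 y (mm h)).2.1
  have mAB : ∀ y, y ∈ ({A, B} : Finset (Fin n)) ↔ y = A ∨ y = B := fun y => by simp
  obtain ⟨t0, p0, q1, q2, q3⟩ := paths (t := u) hP {A, B} {a, e}
    (by rw [card_pair AB, card_pair ae]) (insert_subset aP (by simpa using eP)) hi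
    (fun y => by
      by_cases h : y = g
      · rwa [h, v1]
      · exact sub y (Dm y h))
    (fun y hy z hz => ui y z (fun h => hy (by simp [h])) fun h => hz (by simp [h]))
    fun y hy => ⟨sub y (um y).1, fun h => by
      rw [mAB, not_or] at hy
      rcases mem_insert.1 h with h | h
      · exact hy.1 (ui y A hy.2 AB (by rw [h, u1 A AΛ, tA]))
      · exact (um y).2 (mem_singleton.1 h)⟩
  obtain ⟨x1, m1, e1⟩ := q2 e (by simp)
  obtain ⟨x2, m2, e2⟩ := q2 a (by simp)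
  have d21 : x2 ≠ x1 := fun h => ae (by rw [← e1, ← e2, h])
  have nc : ¬ Cn t0 D a e := e2 ▸ e1 ▸ q3 x2 m2 x1 m1 d21
  have tx : ∀ y ∈ ({A, B} : Finset (Fin n)), t y = a ∧ a ∈ H y ∧ y ∈ Λ := fun y hy => by
    rcases (mAB y).1 hy with rfl | rfl
    exacts [⟨tA, aA, AΛ⟩, ⟨tB, aB, BΛ⟩]
  have t0u : ∀ y, y ≠ x1 → t0 y = u y := fun y hy => by
    by_cases h : y ∈ ({A, B} : Finset (Fin n))
    · have : y = x2 := by
        rw [mAB] at h m1 m2
        rcases h with rfl | rfl <;> rcases m1 with rfl | rfl <;> rcases m2 with rfl | rfl <;>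
          first | rfl | exact absurd rfl hy | exact absurd rfl d21
      rw [this, e2, u1 x2 (tx x2 m2).2.2, (tx x2 m2).1]
    · exact q1 y h
  have g1 : g ≠ x1 := fun h => nc (by rw [← v1, ← e1, h]; exact (Cn.edge x1).sy)
  obtain ⟨T1, D1, p1, b1, b2, ⟨-, b3, b4, b5⟩, b6, b7, b8, b9, -⟩ := merge
    (H := fun y => insert (t0 y) (insert (D y) (H y))) hP
    (fun y => insert_subset (p0.tm y) (insert_subset (p0.hm y) (sub y)))
    ⟨p0.ti, p0.hi, fun y => by simp, fun y => by simp⟩ g x1 a e nc (Or.inr v1) (Or.inl e1)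
    (by simp [eg]) (by simp [(tx x1 m1).2.1])
  have real : ∀ y x, At T1 D1 y x → x ∈ insert (t0 y) (insert (D y) (H y)) → x ∈ H y := by
    intro y x h hx
    by_cases y1 : y = g
    · subst y1
      rcases h with h | h
      · rwa [← h, b4]
      · rw [← h, b5 v1, t0u y g1]; exact (um y).1
    simp only [mem_insert] at hx
    rcases hx with rfl | rfl | hx
    · by_cases y2 : y = x1
      · subst y2
        rw [e1] at h ⊢
        by_cases k : D y = e
        · exact k ▸ Dm y y1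
        · exact ((ends b2 (b3 _ (Or.inr rfl) k) (fun c => y1 (hi (c.symm.trans v1.symm))) h).elim
            ae.symm (Ne.symm k)).elim
      · rw [t0u y y2]; exact (um y).1
    · exact Dm y y1
    · exact hx
  have r1 : Pm H T1 D1 := ⟨p1.ti, p1.hi, fun y => real y _ (Or.inl rfl) (p1.tm y),
    fun y => real y _ (Or.inr rfl) (p1.hm y)⟩
  have x01 : Ext a t0 D T1 D1 := Ext.of hP (fun _ => Subset.rfl) sub p0 r1 b8 fun q h =>
    b7 q (fun k => h (b8 _ _ k)) (fun k => h (b9.tr (b8 _ _ k)))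
  have atΛ : ∀ z ∈ Λ, At T1 D1 z (t z) := fun z hz => by
    by_cases z1 : z = g
    · exact Or.inr (by rw [z1, b5 v1, t0u g g1, u1 g gΛ])
    by_cases z2 : z = x1
    · rw [z2, (tx x1 m1).1]; exact b2
    · exact (b6 z z1 z2 _).2 (Or.inl (by rw [t0u z z2, u1 z hz]))
  have cA : Cn T1 D1 (T1 A) a := tA ▸ (atΛ A AΛ).cn
  obtain ⟨l, l1, l2, l3, l4, l5, l6⟩ := clo (fun y z => Cn T1 D1 (T1 y) (T1 z))
    ⟨fun _ => Cn.rf _, Cn.sy, Cn.tr⟩ (cA.tr (tB ▸ (atΛ B BΛ).cn : Cn T1 D1 (T1 B) a).sy)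
    ((cA.tr b9).tr b1.cn.sy)
  have sw : ∀ i j, ∀ y ∈ l i, ∀ z ∈ l j, Cn T1 D1 (t y) (t z) → Cn T1 D1 (T1 y) (T1 z) :=
    fun i j y hy z hz h => ((atΛ y (l3 i y hy).1).cn.tr h).tr (atΛ z (l3 j z hz).1).cn.sy
  obtain ⟨T2, D2, r2, x12, c2⟩ := close hP sub a t (fun i : Option (Fin n) => i.elim g id)
    (fun i => i.elim e t) l (by
      rintro (_ | i) (_ | j) k1 k2
      · rfl
      · exact absurd k2.symm (tm j).2
      · exact absurd k2 (tm i).2
      · exact congrArg some k1) (univ.filter fun i => l i ≠ []) T1 D1 r1 fun i hi => by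
      have off : ∀ z ∈ l i, ¬ Cn T1 D1 a (T1 z) := fun z hz h => (l3 i z hz).2 (cA.tr h)
      refine and_assoc.1 (and_assoc.1 ⟨?_, fun z hz => ⟨?_, fun h =>
        off z hz (h.tr (atΛ z (l3 i z hz).1).cn.sy)⟩,
        (l4 i).imp_of_mem fun {y z} hy hz k h => k (sw i i y hy z hz h),
        fun j _ ij y hy z hz h => l5 i j ij y hy z hz (sw i j y hy z hz h)⟩)
      · rcases i with _ | i
        · exact ⟨⟨b1, b9⟩, l1⟩
        · obtain ⟨k1, k2, k3⟩ := l2 i (mem_filter.1 hi).2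
          exact ⟨⟨atΛ i k1, (cA.sy.tr k2).tr (atΛ i k1).cn⟩, k3⟩
      · rw [(x01.same z (off z hz)).1, t0u z fun k => off z hz (k ▸ b2.cn.sy), u1 z (l3 i z hz).1]
  have onM : ∀ z ∈ Λ, Cn T2 D2 a (T1 z) := fun z hz => by
    by_cases h : Cn T1 D1 (T1 A) (T1 z)
    · exact x12.up _ _ (cA.sy.tr h)
    · obtain ⟨i, v, k1, k2⟩ := l6 z hz h
      exact (c2 i (mem_filter.2 ⟨mem_univ _, List.ne_nil_of_mem k1⟩) v k1).tr
        (x12.up _ _ ((atΛ v (l3 i v k1).1).cn.sy.tr k2))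
  have onM2 : ∀ z ∈ Λ, Cn T2 D2 a (T2 z) := fun z hz => by
    by_contra h
    exact h ((x12.same z h).1 ▸ onM z hz)
  have x02 := x01.tr x12
  have offu : ∀ y, ¬ Cn T2 D2 a (T2 y) → y ∉ Λ ∧ T2 y = u y := fun y h =>
    ⟨fun c => h (onM2 y c), (x02.same y h).1.trans
      (t0u y fun c => h (onM2 y (c ▸ (tx x1 m1).2.2)))⟩
  have hτ' : (¬ Cn T2 D2 a τ → ∃ h ∈ P, ∃ c', (∀ x ∈ P, ht c' x ≤ ht c' h) ∧
      ∀ y, Cn T2 D2 τ (T2 y) → h ∉ H y) ∧ τ ∈ P := by
    rcases hτ with rfl | ⟨z, hz, rfl⟩ | ⟨S, ⟨z, hz, rfl⟩, k1, h, hh, c', k2, k3⟩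
    · exact ⟨fun k => absurd (x12.up _ _ b9) k, eP⟩
    · exact ⟨fun k => absurd ((onM z hz).tr (x12.up _ _ (atΛ z hz).cn)) k, sub z (tm z).1⟩
    refine ⟨fun hn => ⟨h, hh, c', k2, fun y hy => k3 y ?_⟩, sub z (tm z).1⟩
    have im : S.image u = S.image t := eq_of_subset_of_card_le (fun p hp => by
        obtain ⟨v, hv, rfl⟩ := mem_image.1 hp
        obtain ⟨w, w1, w2⟩ := u3 v (k1 v hv).1
        exact mem_image.2 ⟨w, (k1 v hv).2 w w1 (w2 ▸ (um v).1), w2⟩)
      (by rw [card_image_of_injOn fun v hv w hw => uo v (k1 v hv).1 w (k1 w hw).1]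
          exact card_image_le)
    have own : ∀ v ∉ Λ, u v ∈ S.image t → v ∈ S := fun v hv k => by
      obtain ⟨w, w1, w2⟩ := mem_image.1 (im ▸ k)
      exact uo w (k1 w w1).1 v hv w2 ▸ w1
    have stp : ∀ q, T2 q ∈ {x | ¬ Cn T2 D2 a x ∧ x ∈ S.image t} →
        D2 q ∈ {x | ¬ Cn T2 D2 a x ∧ x ∈ S.image t} := fun q hq => by
      have n1 : ¬ Cn T2 D2 a (D2 q) := fun k => hq.1 (k.tr (Cn.edge q).sy)
      obtain ⟨r, hr⟩ := surj hP r2.ti (fun y => sub y (r2.tm y)) _ (sub q (r2.hm q))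
      obtain ⟨q1, q2⟩ := offu q hq.1
      obtain ⟨r0, r3⟩ := offu r (hr ▸ n1)
      obtain ⟨w, w1, w2⟩ := u3 r r0
      refine ⟨n1, mem_image.2 ⟨w, (k1 q (own q q1 (q2 ▸ hq.2))).2 w w1 ?_, by rw [w2, ← r3, hr]⟩⟩
      rw [w2, ← r3, hr]
      exact r2.hm q
    have := (hy _ fun q => ⟨stp q, fwd hP r2.ti r2.hi (fun y => sub y (r2.tm y))
      (fun y => sub y (r2.hm y)) _ stp q⟩).1 ⟨hn, mem_image_of_mem _ hz⟩
    exact own y (offu y this.1).1 ((offu y this.1).2 ▸ this.2)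
  refine last2 hB hA' hG' a τ c hτ'.2 top (fun y m h => gen y (m + k y) (by
      rw [hT] at h; push_cast; linarith)) A aA d rk r2 hτ'.1 (fun y hy => onM2 y (hΛ y hy)) cut
    fun y r h hn => ?_
  have hn' : ¬ Cn T2 D2 a (T2 y) := fun c => hn (h ▸ c.tr (Cn.edge y))
  have r0 : r ∉ Λ := fun c => hn (onM2 r c)
  have y0 : y ∉ Λ := fun c => hn' (onM2 y c)
  have yg : y ≠ g := fun c => y0 (c ▸ gΛ)
  have f1 := (x02.same r hn).1.trans (t0u r fun c => r0 (c ▸ (tx x1 m1).2.2))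
  have f2 := (x02.same y hn').1.trans (t0u y fun c => y0 (c ▸ (tx x1 m1).2.2))
  have f3 : hd y = u r := by rw [← v2 y yg, ← (x02.same y hn').2, h, f1]
  rw [f1, f2]
  refine ⟨fl y y0 r r0 (by rw [← f1, ← h]; exact r2.hm y), ?_⟩
  rcases (h2 y (mm yg)).2.2 with (c | ⟨r', k1, k2, k3⟩) | c
  · exact absurd c y0
  · exact Or.inr (uo r' k1 r r0 (k2.trans f3) ▸ k3)
  · exact Or.inl (f3 ▸ c)

end Pool.Agent.MP_3b4e7c_co.Hub
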