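import Pool.Agent.MP_3b4e7c_co.Gen.Geo
import Pool.Agent.MP_3b4e7c_co.Hub.Frame2
import Pool.Agent.MP_3b4e7c_co.Hub.Perfect
import Pool.Agent.MP_3b4e7c_co.Gen4.Defs

/-! From halfplanes in the plane to the circular model around a perfect hub. -/

namespace Pool.Agent.MP_3b4e7c_co.Hub

open Finset Up Function Real Gen Gen.Geo Gen3

variable {X : Type} [DecidableEq X] {n : ℕ} {P : Finset X} {H : Fin n → Finset X}
  {T : Fin n → ℝ} {f g : X → ℝ}

/-- the height in direction `c` -/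
noncomputable def hc (f g : X → ℝ) (c : ℝ) (x : X) : ℝ := cos c * f x + sin c * g x

theorem geo3 (P : Finset X) (H : Fin n → Finset X) (f g : X → ℝ) (a b : Fin n → ℝ)
    (hP : ∀ p ∈ P, ∀ q ∈ P, f p = f q → g p = g q → p = q) (hH : ∀ y, H y ⊆ P)
    (up : ∀ y, ∀ p ∈ H y, ∀ x ∈ P, a y * f p + b y * g p ≤ a y * f x + b y * g x → x ∈ H y) :
    ∃ T : Fin n → ℝ, Ang P H T (hc f g) ∧ Generic P T (hc f g) := by
  classical
  obtain ⟨T, h1, h2⟩ := pick (fun y => ⋂ p ∈ P,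
      ⋂ x ∈ P.filter (fun x => a y * f x + b y * g x < a y * f p + b y * g p),
      {c | cos c * f x + sin c * g x < cos c * f p + sin c * g p})
    (⋃ p ∈ P, ⋃ q ∈ P.erase p, {c | cos c * (f p - f q) + sin c * (g p - g q) = 0})
    (fun y => isOpen_biInter_finset fun p _ => isOpen_biInter_finset fun x _ =>
      isOpen_lt (by fun_prop) (by fun_prop))
    (fun y => by
      obtain ⟨r, d, hr, e1, e2⟩ := polar (a y) (b y)
      refine ⟨d, ?_⟩
      simp only [Set.mem_iInter, Set.mem_ofPred_eq]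
      intro p _ x hx
      have := (mem_filter.1 hx).2
      rw [e1, e2] at this
      exact lt_of_mul_lt_mul_left (by linarith) hr)
    (P.countable_toSet.biUnion fun p hp => (P.erase p).countable_toSet.biUnion fun q hq =>
      zeros (by
        by_contra c
        rw [not_or, not_not, not_not, sub_eq_zero, sub_eq_zero] at c
        exact (mem_erase.1 hq).1 (hP p hp q (mem_erase.1 hq).2 c.1 c.2).symm)) univ
  simp only [Set.mem_iInter, Set.mem_ofPred_eq, Set.mem_iUnion, not_exists] at h1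
  refine ⟨T, ⟨fun y p hp x hx h => ?_, fun a c b h1 h2 h3 => ?_,
    fun c x => by unfold hc; rw [cos_add_pi, sin_add_pi]; ring⟩,
    fun y z e => h2 y (mem_univ y) z (mem_univ z) e, fun y p hp q hq e => ?_⟩
  · by_contra c
    exact ((h1 y).1 p (hH y hp) x (mem_filter.2 ⟨hx, not_le.1 fun k => c (up y p hp x hx k)⟩)).not_ge h
  · obtain ⟨α, β, k1, k2, k3, k4⟩ := lin a c b h1 h2 h3
    exact ⟨α, β, k1, k2, k3, fun x => k4 _ _⟩
  · by_contra c
    exact (h1 y).2 p hp q (mem_erase.2 ⟨Ne.symm c, hq⟩) (by linarith [show _ + _ = _ + _ from e])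

/-- a vertex of the convex hull, highest in a generic direction -/
def Top (P : Finset X) (T : Fin n → ℝ) (f g : X → ℝ) (h : X) : Prop :=
  ∃ c, (∀ x ∈ P, x ≠ h → hc f g c x < hc f g c h) ∧ ∀ y, ∀ k : ℤ, c - T y ≠ (2 * k + 1) * π

theorem exists_top (hP : ∀ p ∈ P, ∀ q ∈ P, f p = f q → g p = g q → p = q) (T : Fin n → ℝ) (θ : ℝ)
    (hne : P.Nonempty) : ∃ h ∈ P, Top P T f g h ∧ ∀ x ∈ P, hc f g θ x ≤ hc f g θ h := by
  classical
  obtain ⟨p, hp, top⟩ := exists_max_image P (hc f g θ) hne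
  have cB : (⋃ p ∈ P, ⋃ q ∈ P.erase p,
      {c | cos c * (f p - f q) + sin c * (g p - g q) = 0}).Countable :=
    P.countable_toSet.biUnion fun p hp => (P.erase p).countable_toSet.biUnion fun q hq => zeros (by
      by_contra c
      rw [not_or, not_not, not_not, sub_eq_zero, sub_eq_zero] at c
      exact (mem_erase.1 hq).1 (hP p hp q (mem_erase.1 hq).2 c.1 c.2).symm)
  obtain ⟨c, c1, c2⟩ := ((cB.union
      (Set.countable_range fun x : Fin n × ℤ => T x.1 + (2 * x.2 + 1) * π)).dense_compl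
      ℝ).inter_open_nonempty (⋂ x ∈ P.filter (fun x => hc f g θ x < hc f g θ p),
        {c | hc f g c x < hc f g c p})
      (isOpen_biInter_finset fun x _ => isOpen_lt (by unfold hc; fun_prop) (by unfold hc; fun_prop))
      ⟨θ, by
        simp only [Set.mem_iInter, Set.mem_ofPred_eq]
        exact fun x hx => (mem_filter.1 hx).2⟩
  simp only [Set.mem_iInter, Set.mem_ofPred_eq] at c1
  simp only [Set.mem_compl_iff, Set.mem_union, Set.mem_iUnion, Set.mem_ofPred_eq, not_or,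
    not_exists, Set.mem_range] at c2
  obtain ⟨h, hh, top'⟩ := exists_max_image P (hc f g c) hne
  refine ⟨h, hh, ⟨c, fun x hx k => (top' x hx).lt_of_ne fun e => ?_, fun y k e =>
    c2.2 (y, k) (by simp only; linarith)⟩, fun x hx => (top x hx).trans (le_of_not_gt fun k =>
      (c1 h (mem_filter.2 ⟨hh, k⟩)).not_ge (top' p hp))⟩
  exact c2.1 h hh x (mem_erase.2 ⟨k, hx⟩) (by unfold hc at e; linarith)

/-- `p` lies in the convex hull of `q` and the points outside the label -/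
def Below (P : Finset X) (H : Fin n → Finset X) (f g : X → ℝ) (y : Fin n) (p q : X) : Prop :=
  p ∈ H y ∧ q ∈ H y ∧ p ≠ q ∧
    ∀ c, hc f g c p ≤ hc f g c q ∨ ∃ x ∈ P, x ∉ H y ∧ hc f g c p ≤ hc f g c x

theorem cos_pos_iff (u : ℝ) : 0 < cos u ↔ ∃ k : ℤ, |u + 2 * π * k| < π / 2 := by
  constructor
  · intro h
    obtain ⟨k, hk⟩ := Gen2.near u 0 fun k e => by
      rw [sub_zero] at e
      rw [e, show (2 * k + 1 : ℝ) * π = k * (2 * π) + π by ring, cos_add_pi, cos_int_mul_two_pi] at h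
      linarith
    refine ⟨-k, ?_⟩
    rw [show u + 2 * π * (-k : ℤ) = u - (0 + 2 * π * k) by push_cast; ring]
    by_contra d
    have e : cos |u - (0 + 2 * π * k)| = cos u := by
      rw [cos_abs, show u - (0 + 2 * π * k) = u - k * (2 * π) by ring, cos_sub_int_mul_two_pi]
    exact (e ▸ cos_nonpos_of_pi_div_two_le_of_le (not_lt.1 d) (by linarith [pi_pos])).not_gt h
  · rintro ⟨k, hk⟩
    rw [← cos_add_int_mul_two_pi u k, show u + k * (2 * π) = u + 2 * π * k by ring]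
    exact cos_pos_of_mem_Ioo ⟨(abs_lt.1 hk).1, (abs_lt.1 hk).2⟩

theorem arc_iff {l w u : ℝ} (hw : w ≤ 1) :
    Gen4.Arc l w u ↔ ∃ k : ℤ, l < u + k ∧ u + k < l + w := by
  unfold Gen4.Arc
  constructor
  · rintro ⟨h1, h2⟩
    rw [← Int.self_sub_floor] at h1 h2
    exact ⟨-⌊u - l⌋, by push_cast; linarith, by push_cast; linarith⟩
  · rintro ⟨k, h1, h2⟩
    have : Int.fract (u - l) = u + k - l :=
      Int.fract_eq_iff.2 ⟨by linarith, by linarith, -k, by push_cast; ring⟩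
    rw [this]
    exact ⟨by linarith, by linarith⟩

theorem half_iff (θ u : ℝ) : 0 < cos (2 * π * θ + π / 2 - 2 * π * u) ↔
    ∃ k : ℤ, θ < u + k ∧ u + k < θ + 1 / 2 := by
  rw [← cos_neg, cos_pos_iff]
  refine exists_congr fun k => ?_
  rw [show -(2 * π * θ + π / 2 - 2 * π * u) + 2 * π * k = 2 * π * (u + k - θ - 1 / 4) by ring,
    show π / 2 = 2 * π * (1 / 4) by ring, abs_mul, abs_of_pos two_pi_pos,
    mul_lt_mul_iff_right₀ two_pi_pos, abs_lt]
  exact ⟨fun h => ⟨by linarith [h.1], by linarith [h.2]⟩, fun h => ⟨by linarith [h.1], by linarith [h.2]⟩⟩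

/-- a point that is not below `a` is cut from the outside points by a line through `a` -/
theorem narrow (hA : Ang P H T (hc f g)) {z : Fin n} {a p : X} (ha : a ∈ H z)
    (hp : p ∈ H z) (c : ℝ) (h1 : hc f g c a < hc f g c p)
    (h2 : ∀ x ∈ P, x ∉ H z → hc f g c x < hc f g c p) :
    ∃ θ, hc f g θ a < hc f g θ p ∧ ∀ x ∈ P, x ∉ H z → hc f g θ x < hc f g θ a := by
  classical
  have lo : ∀ q ∈ H z, ∀ x ∈ P, x ∉ H z → hc f g (T z) x < hc f g (T z) q := fun q hq x hx k =>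
    lt_of_not_ge fun d => k (hA.up z q hq x hx d)
  by_cases k : hc f g (T z) a < hc f g (T z) p
  · exact ⟨T z, k, lo a ha⟩
  have ev : ∀ᶠ ε in nhdsWithin (0 : ℝ) (Set.Ioi 0), ∀ x ∈ P.filter (· ∉ H z),
      (hc f g c p - hc f g c a) * (hc f g (T z) x - hc f g (T z) a) +
        (hc f g (T z) a - hc f g (T z) p + ε) * (hc f g c x - hc f g c a) < 0 := by
    refine (Filter.eventually_all_finset _).2 fun x hx => ?_
    obtain ⟨x1, x2⟩ := mem_filter.1 hx
    have cont : ContinuousAt (fun ε : ℝ => (hc f g c p - hc f g c a) *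
        (hc f g (T z) x - hc f g (T z) a) +
        (hc f g (T z) a - hc f g (T z) p + ε) * (hc f g c x - hc f g c a)) 0 := by fun_prop
    refine (cont.eventually (gt_mem_nhds ?_)).filter_mono nhdsWithin_le_nhds
    have a1 := mul_pos (sub_pos.2 h1) (sub_pos.2 (lo p hp x x1 x2))
    have a2 := mul_nonneg (sub_nonneg.2 (not_lt.1 k)) (sub_pos.2 (h2 x x1 x2)).le
    simp only
    nlinarith
  obtain ⟨ε, e1, e2⟩ := (ev.and self_mem_nhdsWithin).exists
  have e3 : 0 < ε := e2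
  obtain ⟨r, d, hr, r1, r2⟩ := polar
    ((hc f g c p - hc f g c a) * cos (T z) + (hc f g (T z) a - hc f g (T z) p + ε) * cos c)
    ((hc f g c p - hc f g c a) * sin (T z) + (hc f g (T z) a - hc f g (T z) p + ε) * sin c)
  have key : ∀ x, r * (hc f g d x - hc f g d a) = (hc f g c p - hc f g c a) *
      (hc f g (T z) x - hc f g (T z) a) +
      (hc f g (T z) a - hc f g (T z) p + ε) * (hc f g c x - hc f g c a) := by
    intro x
    generalize hc f g c p - hc f g c a = α at r1 r2 ⊢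
    generalize hc f g (T z) a - hc f g (T z) p + ε = β at r1 r2 ⊢
    unfold hc
    linear_combination (f a - f x) * r1 + (g a - g x) * r2
  refine ⟨d, ?_, fun x hx k' => ?_⟩
  · have := key p
    have a1 := mul_pos e3 (sub_pos.2 h1)
    exact sub_pos.1 (pos_of_mul_pos_right (a := r) (by nlinarith) hr)
  · have := (key x).trans_lt (e1 x (mem_filter.2 ⟨hx, k'⟩))
    exact sub_neg.1 (neg_of_mul_neg_right this hr)

/-- the circular model at a perfect hub -/
theorem circ (hB : Base P H) (hA : Ang P H T (hc f g)) (hG : Generic P T (hc f g))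
    (hP : ∀ p ∈ P, ∀ q ∈ P, f p = f q → g p = g q → p = q) (nf : ∀ y, H y ≠ P) :
    ∃ a G E ang lo len, Gen4.Circ P H G a E ang lo len ∅ ∧ ∀ h ∈ E, Top P T f g h := by
  classical
  have sub := hB.sub
  have upT : ∀ y p q, Below P H f g y p q → hc f g (T y) p ≤ hc f g (T y) q :=
    fun y p q h => (h.2.2.2 (T y)).resolve_right fun ⟨x, x1, x2, x3⟩ => x2 (hA.up y p h.1 x x1 x3)
  obtain ⟨a, aP, per⟩ := perfect hB (Below P H f g) (fun y p q h => h.2.1)
    (fun y p q r h k => ⟨h.1, k.2.1, fun e => h.2.2.1 (hG.inj y (sub y h.1) (sub y h.2.1)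
      (le_antisymm (upT y p q h) (e ▸ upT y q r k))), fun c => (h.2.2.2 c).elim
        (fun h1 => (k.2.2.2 c).imp h1.trans fun ⟨x, x1, x2, x3⟩ => ⟨x, x1, x2, h1.trans x3⟩)
        Or.inr⟩) (fun y p h => h.2.2.1 rfl) (Top P T f g)
    (fun h ⟨c, top, _⟩ y q k => (k.2.2.2 c).elim (top q (sub y k.2.1) k.2.2.1.symm).not_ge
      fun ⟨x, x1, x2, x3⟩ => (top x x1 fun e => x2 (e ▸ k.1)).not_ge x3)
    fun y => by
      obtain ⟨e, e1, e2⟩ := topOf hB hA y
      exact ⟨e, e1, T y, fun x hx k => (e2 x hx).lt_of_ne fun d => k (hG.inj y hx (sub y e1) d),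
        genT hG y⟩
  choose ρ ω p0 p1 p2 using fun x => polar (f x - f a) (g x - g a)
  obtain ⟨ang, ea⟩ : ∃ ang : X → ℝ, ∀ x, ω x = 2 * π * ang x :=
    ⟨fun x => ω x / (2 * π), fun x => by field_simp⟩
  have ab : ∀ θ, ∀ x ∈ P, x ≠ a → (hc f g (2 * π * θ + π / 2) a < hc f g (2 * π * θ + π / 2) x ↔
      ∃ k : ℤ, θ < ang x + k ∧ ang x + k < θ + 1 / 2) := by
    intro θ x hx xa
    have r : 0 < ρ x := (p0 x).lt_of_ne fun e => xa (hP x hx a aP
      (by have := p1 x; rw [← e] at this; linarith) (by have := p2 x; rw [← e] at this; linarith))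
    rw [← half_iff, ← ea, ← mul_pos_iff_of_pos_left r, ← sub_pos, cos_sub _ (ω x)]
    generalize 2 * π * θ + π / 2 = c
    have : hc f g c x - hc f g c a = ρ x * (cos c * cos (ω x) + sin c * sin (ω x)) := by
      unfold hc
      linear_combination cos c * p1 x + sin c * p2 x
    rw [this]
  have be : ∀ θ, ∀ x ∈ P, x ≠ a → (hc f g (2 * π * θ + π / 2) x < hc f g (2 * π * θ + π / 2) a ↔
      ∃ k : ℤ, θ + 1 / 2 < ang x + k ∧ ang x + k < θ + 1) := by
    intro θ x hx xa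
    have := ab (θ + 1 / 2) x hx xa
    rw [show 2 * π * (θ + 1 / 2) + π / 2 = 2 * π * θ + π / 2 + π by ring, hA.anti, hA.anti,
      neg_lt_neg_iff, show θ + 1 / 2 + 1 / 2 = θ + 1 by ring] at this
    exact this
  have dir : ∀ c : ℝ, ∃ θ, c = 2 * π * θ + π / 2 := fun c =>
    ⟨(c - π / 2) / (2 * π), by field_simp; ring⟩
  have mG : ∀ y x, x ∈ (Fc H (Below P H f g) a y).erase a ↔
      x ≠ a ∧ x ∈ H y ∧ ¬ Below P H f g y x a := fun y x => by rw [mem_erase, mem_Fc]
  have ex : ∀ y, ∃ lo len : ℝ, (a ∈ H y → (1 / 2 < len ∧ len ≤ 1) ∧ ∀ x ∈ P.erase a,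
      (x ∈ (Fc H (Below P H f g) a y).erase a ↔ Gen4.Arc lo len (ang x))) ∧
      (a ∉ H y → ∀ x ∈ H y, Gen4.Arc lo (1 / 2) (ang x)) := by
    intro z
    obtain ⟨θ, hθ⟩ := dir (T z)
    by_cases az : a ∈ H z
    swap
    · refine ⟨θ, 0, fun h => absurd h az, fun _ x hx => (arc_iff (by norm_num)).2
        ((ab θ x (sub z hx) fun e => az (e ▸ hx)).1 ?_)⟩
      rw [← hθ]
      exact lt_of_not_ge fun d => az (hA.up z x hx a aP d)
    have ne : ∀ x, x ∉ H z → x ≠ a := fun x h e => h (e ▸ az)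
    choose! j j1 j2 using fun x (hx : x ∈ P.filter (· ∉ H z)) =>
      (be θ x (mem_filter.1 hx).1 (ne x (mem_filter.1 hx).2)).1
        (hθ ▸ lt_of_not_ge fun d => (mem_filter.1 hx).2 (hA.up z a az x (mem_filter.1 hx).1 d))
    have hC : (P.filter (· ∉ H z)).Nonempty := by
      obtain ⟨x, x1, x2⟩ := exists_of_ssubset (ssubset_of_ne_of_subset (nf z) (sub z))
      exact ⟨x, mem_filter.2 ⟨x1, x2⟩⟩
    obtain ⟨u, hu, low⟩ := exists_min_image _ (fun x => ang x + j x) hC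
    obtain ⟨v, hv, top⟩ := exists_max_image _ (fun x => ang x + j x) hC
    have u1 := j1 u hu
    have v2 := j2 v hv
    have uv := low v hv
    refine ⟨ang v + j v, ang u + j u + 1 - (ang v + j v), fun _ => ⟨⟨by linarith, by linarith⟩,
      fun x hx => ?_⟩, fun h => absurd az h⟩
    obtain ⟨xa, xP⟩ := mem_erase.1 hx
    rw [mG, arc_iff (by linarith)]
    constructor
    · rintro ⟨-, x1, x2⟩
      have x3 : ¬ ∀ c, hc f g c x ≤ hc f g c a ∨ ∃ w ∈ P, w ∉ H z ∧ hc f g c x ≤ hc f g c w :=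
        fun h => x2 ⟨x1, az, xa, h⟩
      push Not at x3
      obtain ⟨c, c1, c2⟩ := x3
      obtain ⟨d, d1, d2⟩ := narrow hA az x1 c c1 c2
      obtain ⟨η, rfl⟩ := dir d
      obtain ⟨k, k1, k2⟩ := (ab η x xP xa).1 d1
      obtain ⟨m1, a1, a2⟩ := (be η u (mem_filter.1 hu).1 (ne u (mem_filter.1 hu).2)).1
        (d2 u (mem_filter.1 hu).1 (mem_filter.1 hu).2)
      obtain ⟨m2, b1, b2⟩ := (be η v (mem_filter.1 hv).1 (ne v (mem_filter.1 hv).2)).1
        (d2 v (mem_filter.1 hv).1 (mem_filter.1 hv).2)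
      have e1 : m1 - j u - (m2 - j v) < 1 := by
        have : ((m1 - j u - (m2 - j v) : ℤ) : ℝ) < 1 := by push_cast; linarith
        exact_mod_cast this
      have e2 : -1 < m1 - j u - (m2 - j v) := by
        have : (-1 : ℝ) < ((m1 - j u - (m2 - j v) : ℤ) : ℝ) := by push_cast; linarith
        exact_mod_cast this
      have e3 : ((m1 - j u : ℤ) : ℝ) = ((m2 - j v : ℤ) : ℝ) := by congr 1; omega
      push_cast at e3
      exact ⟨k + 1 - (m2 - j v), by push_cast; linarith, by push_cast; linarith⟩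
    · rintro ⟨k, k1, k2⟩
      refine ⟨xa, by_contra fun d => ?_, fun h => ?_⟩
      · have a1 := low x (mem_filter.2 ⟨xP, d⟩)
        have a2 := top x (mem_filter.2 ⟨xP, d⟩)
        have e1 : j x < k := by
          have : (j x : ℝ) < k := by linarith
          exact_mod_cast this
        have e2 : k < j x + 1 := by
          have : (k : ℝ) < j x + 1 := by linarith
          exact_mod_cast this
        omega
      obtain ⟨η, n1, n2⟩ := exists_between (show max (ang v + j v) (ang x + k - 1 / 2) <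
        min (ang x + k) (ang u + j u + 1 / 2) by
          rw [max_lt_iff, lt_min_iff, lt_min_iff]
          exact ⟨⟨k1, by linarith⟩, by linarith, by linarith⟩)
      rw [max_lt_iff] at n1
      rw [lt_min_iff] at n2
      have a1 := (ab η x xP xa).2 ⟨k, n2.1, by linarith [n1.2]⟩
      rcases h.2.2.2 (2 * π * η + π / 2) with d | ⟨w, w1, w2, d⟩
      · exact a1.not_ge d
      · have b1 := low w (mem_filter.2 ⟨w1, w2⟩)
        have b2 := top w (mem_filter.2 ⟨w1, w2⟩)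
        exact (((be η w w1 (ne w w2)).2 ⟨j w + 1, by push_cast; linarith [n2.2],
          by push_cast; linarith [n1.1]⟩).trans a1).not_ge d
  choose lo len l1 l2 using ex
  refine ⟨a, fun y => (Fc H (Below P H f g) a y).erase a, (P.erase a).filter (Top P T f g), ang,
    lo, len, ⟨aP, fun y x hx => mem_erase.2 ⟨((mG y x).1 hx).1, ((mG y x).1 hx).2.1⟩,
      fun y h => (l1 y h).1, fun y h => (l1 y h).2, fun y h => ⟨?_, l2 y h⟩,
      fun Z z1 z2 => (per Z z1 z2).trans (card_le_card fun y hy => ?_), filter_subset _ _,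
      Set.countable_empty, fun θ _ ⟨x, hx, k⟩ => ?_⟩, fun h hh => (mem_filter.1 hh).2⟩
  · ext x
    rw [mG]
    exact ⟨fun k => k.2.1, fun k => ⟨fun e => h (e ▸ k), k, fun d => h d.2.1⟩⟩
  · obtain ⟨-, p, q1, q2⟩ := mem_Nb.1 hy
    exact mem_filter.2 ⟨mem_univ _, p, q1, mem_erase.2 ⟨(mem_erase.1 (z1 q1)).1, q2⟩⟩
  · obtain ⟨h, h1, h2, h3⟩ := exists_top hP T (2 * π * θ + π / 2) ⟨a, aP⟩
    have a1 := ((ab θ x (mem_erase.1 hx).2 (mem_erase.1 hx).1).2
      ((arc_iff (by norm_num)).1 k)).trans_le (h3 x (mem_erase.1 hx).2)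
    have ha : h ≠ a := fun e => a1.ne (by rw [e])
    exact ⟨h, mem_filter.2 ⟨mem_erase.2 ⟨ha, h1⟩, h2⟩,
      (arc_iff (by norm_num)).2 ((ab θ h h1 ha).1 a1)⟩

/-- the closing theorem gives the cyclic ordering in the finite model -/
theorem ham_of_closing [Fintype X] (cl : Gen4.ClosingS) (hB : Base P H) (hA : Ang P H T (hc f g))
    (hG : Generic P T (hc f g)) (hP : ∀ p ∈ P, ∀ q ∈ P, f p = f q → g p = g q → p = q) (o : X)
    (ho : o ∉ P) : Ham P H := by
  by_cases nf : ∀ y, H y ≠ P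
  swap
  · push Not at nf
    obtain ⟨y, hy⟩ := nf
    exact full hB hA hG o ho y hy
  obtain ⟨a, G, E, ang, lo, len, hC, hE⟩ := circ hB hA hG hP nf
  obtain ⟨A, B, w, e, t, k1, k2, k3, k4, k5, k6, k7, k8, k9⟩ := cl X n P H G a E ang lo len ∅ hB hC
  have mT : ∀ y, y ∈ Gen4.Thru H a ↔ a ∈ H y := fun y => by simp [Gen4.Thru]
  rcases k9 with ⟨τ, t1, t2⟩ | ⟨S, s1, s2, ⟨y, y1, y2⟩, h, h1, h2⟩
  · obtain ⟨c, c1, c2⟩ := hE τ t1
    exact frame2 hB hA hG o ho _ A B w a e τ c k1 (fun y => (mT y).2) ((mT w).2 k2) k3 t k4 k5 k6 k7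
      c1 c2 (t2.imp_right Or.inl) k8
  · obtain ⟨c, c1, c2⟩ := hE _ y2
    obtain ⟨d, d1, -⟩ := hE h h1
    exact frame2 hB hA hG o ho _ A B w a e (t y) c k1 (fun y => (mT y).2) ((mT w).2 k2) k3 t k4 k5
      k6 k7 c1 c2 (Or.inr (Or.inr ⟨S, ⟨y, y1, rfl⟩, fun z hz => ⟨fun k => s1 z hz ((mT z).1 k),
        fun v hv => s2 z hz v fun k => hv ((mT v).2 k)⟩, h, mem_of_mem_erase (hC.hs h1), d,
        fun x hx => (eq_or_ne x h).elim (fun e => e ▸ le_rfl) fun e => (d1 x hx e).le, h2⟩)) k8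

/-- from the finite model to points and halfplanes in the plane -/
theorem plane3 (cl : Gen4.ClosingS) (n : ℕ) (hn : 2 ≤ n) (P : Finset (ℝ × ℝ)) (hP : P.card = n)
    (H : Fin n → Set (ℝ × ℝ)) (a b c : Fin n → ℝ)
    (hc : ∀ i, H i = {p | c i ≤ a i * p.1 + b i * p.2} ∨ H i = {p | c i < a i * p.1 + b i * p.2})
    (hall : ∀ X : Finset (ℝ × ℝ), X ⊆ P → 2 ≤ X.card →
      X.card ≤ {i : Fin n | 2 ≤ ((X : Set (ℝ × ℝ)) ∩ H i).ncard}.ncard) :
    ∃ (p : Fin n → ℝ × ℝ) (σ : Equiv.Perm (Fin n)), Function.Injective p ∧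
      Set.range p = (P : Set (ℝ × ℝ)) ∧
      ∀ k, p k ∈ H (σ k) ∧ p (finRotate n k) ∈ H (σ k) := by
  classical
  obtain ⟨o, ho⟩ := Infinite.exists_notMem_finset P
  let P' : Finset ↥(insert o P) := univ.filter (fun x => x.1 ∈ P)
  let H' : Fin n → Finset ↥(insert o P) := fun i => univ.filter (fun x => x.1 ∈ P ∧ x.1 ∈ H i)
  have mP : ∀ x, x ∈ P' ↔ x.1 ∈ P := fun x => by simp only [P', mem_filter, mem_univ, true_and]
  have mH : ∀ i x, x ∈ H' i ↔ x.1 ∈ P ∧ x.1 ∈ H i := fun i x => by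
    simp only [H', mem_filter, mem_univ, true_and]
  have cP : P'.card = n := by
    rw [← hP, ← card_image_of_injective P' Subtype.val_injective]
    congr 1
    ext z
    simp only [mem_image, mP]
    exact ⟨fun ⟨x, h1, h2⟩ => h2 ▸ h1, fun h => ⟨⟨z, mem_insert_of_mem h⟩, h, rfl⟩⟩
  have sub : ∀ i, H' i ⊆ P' := fun i x hx => (mP x).2 ((mH i x).1 hx).1
  have up : ∀ r, ∀ x ∈ H r, ∀ y : ℝ × ℝ, a r * x.1 + b r * x.2 ≤ a r * y.1 + b r * y.2 →
      y ∈ H r := by
    intro r x h2 y h1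
    rcases hc r with e | e <;> rw [e] at h2 ⊢ <;> simp only [Set.mem_ofPred_eq] at h2 ⊢ <;>
      linarith
  have inj0 : ∀ p ∈ P', ∀ q ∈ P', p.1.1 = q.1.1 → p.1.2 = q.1.2 → p = q :=
    fun p _ q _ h1 h2 => Subtype.ext (Prod.ext h1 h2)
  obtain ⟨T, g1, g2⟩ := geo3 P' H' (fun x => x.1.1) (fun x => x.1.2) a b inj0 sub
    fun r x hx y hy h1 => (mH r y).2 ⟨(mP y).1 hy, up r _ ((mH r x).1 hx).2 _ h1⟩
  obtain ⟨p, σ, p1, p2, p3⟩ := ham_of_closing cl (P := P') (H := H') ⟨cP, hn, sub, fun W hW h2 => by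
    have i2 := card_image_of_injective W Subtype.val_injective
    have i1 := hall (W.image Subtype.val) (fun z hz => by
      obtain ⟨x, hx, rfl⟩ := mem_image.1 hz
      exact (mP x).1 (hW hx)) (by omega)
    refine (i2 ▸ i1).trans ?_
    rw [← Set.ncard_coe_finset]
    refine Set.ncard_le_ncard (fun i hi => ?_) (Finset.finite_toSet _)
    have hi' : 1 < (((W.image Subtype.val : Finset (ℝ × ℝ)) : Set (ℝ × ℝ)) ∩ H i).ncard := hi
    obtain ⟨z, w, hz, hw, hne⟩ := (Set.one_lt_ncard_iff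
      ((W.image Subtype.val).finite_toSet.inter_of_left _)).1 hi'
    obtain ⟨x, hx, rfl⟩ := mem_image.1 hz.1
    obtain ⟨y, hy, rfl⟩ := mem_image.1 hw.1
    exact mem_coe.2 (mem_filter.2 ⟨mem_univ _, one_lt_card.2
      ⟨x, mem_inter.2 ⟨hx, (mH i x).2 ⟨(mP x).1 (hW hx), hz.2⟩⟩,
        y, mem_inter.2 ⟨hy, (mH i y).2 ⟨(mP y).1 (hW hy), hw.2⟩⟩,
        fun h => hne (congrArg Subtype.val h)⟩⟩)⟩ g1 g2 inj0 ⟨o, mem_insert_self _ _⟩
    fun h => ho ((mP _).1 h)
  have inj : Function.Injective (fun k => (p k).1) := Subtype.val_injective.comp p1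
  refine ⟨fun k => (p k).1, σ, inj, ?_, fun k =>
    ⟨((mH _ _).1 (p3 k).1).2, ((mH _ _).1 (p3 k).2).2⟩⟩
  have : univ.image (fun k => (p k).1) = P := eq_of_subset_of_card_le
    (fun z hz => by obtain ⟨k, -, rfl⟩ := mem_image.1 hz; exact (mP _).1 (p2 k))
    (by rw [card_image_of_injective _ inj]; simp [hP])
  exact (by simp : Set.range (fun k => (p k).1) = ↑(univ.image (fun k => (p k).1))).trans
    (congrArg _ this)

end Pool.Agent.MP_3b4e7c_co.Hub
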